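import Pool.Agent.Helper64.HK.Lin

/-!
# `k + 1` factors: the lines in one factor and the involutions
-/

set_option autoImplicit false

namespace Pool.Agent.Helper64.HK

open Pool.Agent.Helper28.HN (I aff)
open Function Finset

variable {k m : ℕ} {a : Fin (k + 1) → Fin (m + 1)} {S : Type*} [CommRing S] (c : Ix a → S)

/-! ## Independence of the factor -/

section upd

variable (j : Fin (k + 1)) (X : Fin (k + 1) → I m → S) (w : I m → S)

@[simp] theorem Pf_upd (v v' : I m → S) : Pf c j (update X j w) v v' = Pf c j X v v' := by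
  simp only [Pf, update_idem]

@[simp] theorem rf_upd (r : Fin m) (v : I m → S) : rf c j (update X j w) r v = rf c j X r v := by
  simp only [rf, update_idem]

@[simp] theorem Mx_upd : Mx c (update X 0 w) = Mx c X := by
  ext r b
  unfold Mx
  rw [rf_upd]

@[simp] theorem Nx_upd : Nx c j (update X j w) = Nx c j X := by
  ext r b
  unfold Nx
  rw [rf_upd]

@[simp] theorem Y0_upd : Y0 c (update X 0 w) = Y0 c X := by simp only [Y0, Mx_upd, rf_upd]

@[simp] theorem Y1_upd : Y1 c (update X 0 w) = Y1 c X := by simp only [Y1, Mx_upd, rf_upd]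

@[simp] theorem yh_upd (z : S) : yh c (update X 0 w) z = yh c X z := by
  unfold yh
  rw [Y0_upd, Y1_upd]

@[simp] theorem Xz_upd (z : S) : Xz c (update X 0 w) z = Xz c X z := by
  unfold Xz
  rw [yh_upd, update_idem]

@[simp] theorem vh_upd : vh c j (update X j w) = vh c j X := by simp only [vh, Nx_upd, rf_upd]

@[simp] theorem xh_upd : xh c j (update X j w) = xh c j X := by simp only [xh, vh_upd]

@[simp] theorem Ah_upd : Ah c (update X 0 w) = Ah c X := by simp only [Ah, Pf_upd, Y1_upd]

@[simp] theorem Bh_upd : Bh c (update X 0 w) = Bh c X := by simp only [Bh, Pf_upd, Y0_upd, Y1_upd]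

@[simp] theorem Ch_upd : Ch c (update X 0 w) = Ch c X := by simp only [Ch, Pf_upd, Y0_upd]

@[simp] theorem Fh_upd (z : S) : Fh c (update X 0 w) z = Fh c X z := by
  simp only [Fh, Pf_upd, yh_upd]

@[simp] theorem vp_upd (e : Fin m → S) : vp c (update X 0 w) e = vp c X e := by
  simp only [vp, Mx_upd]

theorem psh_upd (hj : j ≠ 0) (z : S) : psh c j (update X 0 w) z = psh c j X z := by
  simp only [psh, Xz_upd, update_of_ne hj]

theorem kah_upd (z : S) : kah c j (update X 0 w) z = kah c j X z := by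
  simp only [kah, Xz_upd]

end upd

/-! ## Rows -/

theorem rf_comb (j : Fin (k + 1)) (X : Fin (k + 1) → I m → S) (r : Fin m) (α β : S)
    (v w : I m → S) : rf c j X r (fun l => α * v l + β * w l) =
      α * rf c j X r v + β * rf c j X r w := by
  unfold rf
  exact Ef_comb c (Fin.succAbove_ne (a j) r).symm X α β v w

theorem rf_smul (j : Fin (k + 1)) (X : Fin (k + 1) → I m → S) (r : Fin m) (α : S)
    (v : I m → S) : rf c j X r (fun l => α * v l) = α * rf c j X r v := by
  have := rf_comb c j X r α 0 v v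
  simpa using this

/-- The rows as linear maps. -/
def rfl' (j : Fin (k + 1)) (X : Fin (k + 1) → I m → S) (r : Fin m) : (I m → S) →ₗ[S] S where
  toFun := rf c j X r
  map_add' v w := by
    have := rf_comb c j X r 1 1 v w
    simp only [one_mul] at this
    exact this
  map_smul' α v := rf_smul c j X r α v

theorem rf_eq_sum (j : Fin (k + 1)) (X : Fin (k + 1) → I m → S) (r : Fin m) (v : I m → S) :
    rf c j X r v = ∑ l, rf c j X r (Pi.single l 1) * v l := by
  have h : rf c j X r v = rfl' c j X r v := rfl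
  rw [h, LinearMap.pi_apply_eq_sum_univ]
  refine sum_congr rfl fun l _ => ?_
  have h2 : (fun i => if l = i then (1 : S) else 0) = Pi.single l 1 := by
    funext i
    by_cases h : l = i
    · subst h; simp
    · rw [if_neg h, Pi.single_eq_of_ne (Ne.symm h)]
  rw [h2, smul_eq_mul, mul_comm]
  rfl

theorem rf_split0 (X : Fin (k + 1) → I m → S) (r : Fin m) (v : I m → S) :
    rf c 0 X r v = rf c 0 X r (Pi.single 0 1) * v 0 + rf c 0 X r (Pi.single 1 1) * v 1 +
      (Mx c X).mulVec (fun b => v b.succ.succ) r := by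
  rw [rf_eq_sum, Fin.sum_univ_succ, Fin.sum_univ_succ]
  exact (add_assoc (G := S) _ _ _).symm

theorem rf_splitj (j : Fin (k + 1)) (X : Fin (k + 1) → I m → S) (r : Fin m) (v : I m → S) :
    rf c j X r v = rf c j X r (Pi.single 0 1) * v 0 +
      ((Nx c j X).mulVec (fun b => v b.castSucc.succ) r +
      rf c j X r (Pi.single (Fin.last (m + 1)) 1) * v (Fin.last (m + 1))) := by
  rw [rf_eq_sum, Fin.sum_univ_succ, Fin.sum_univ_castSucc, Fin.succ_last]
  rfl

theorem mulVec_adj (M : Matrix (Fin m) (Fin m) S) (v : Fin m → S) :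
    M.mulVec (M.adjugate.mulVec v) = M.det • v := by
  rw [Matrix.mulVec_mulVec, Matrix.mul_adjugate, Matrix.smul_mulVec, Matrix.one_mulVec]

theorem adj_mulVec (M : Matrix (Fin m) (Fin m) S) (v : Fin m → S) :
    M.adjugate.mulVec (M.mulVec v) = M.det • v := by
  rw [Matrix.mulVec_mulVec, Matrix.adjugate_mul, Matrix.smul_mulVec, Matrix.one_mulVec]

section line0

variable (X : Fin (k + 1) → I m → S) (z w : S)

@[simp] theorem Y0_zero : Y0 c X 0 = (Mx c X).det := rfl

@[simp] theorem Y0_one : Y0 c X 1 = 0 := rfl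

@[simp] theorem Y1_zero : Y1 c X 0 = 0 := rfl

@[simp] theorem Y1_one : Y1 c X 1 = (Mx c X).det := rfl

theorem Y0_succ : (fun b : Fin m => Y0 c X b.succ.succ) =
    - ((Mx c X).adjugate.mulVec fun r => rf c 0 X r (Pi.single 0 1)) := rfl

theorem Y1_succ : (fun b : Fin m => Y1 c X b.succ.succ) =
    - ((Mx c X).adjugate.mulVec fun r => rf c 0 X r (Pi.single 1 1)) := rfl

@[simp] theorem yh_zero : yh c X z 0 = (Mx c X).det := by
  simp [yh]

@[simp] theorem yh_one : yh c X z 1 = z * (Mx c X).det := by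
  simp [yh]

theorem rf_Y0 (r : Fin m) : rf c 0 X r (Y0 c X) = 0 := by
  rw [rf_split0, Y0_succ, Matrix.mulVec_neg, mulVec_adj, Y0_zero, Y0_one]
  simp only [Pi.neg_apply, Pi.smul_apply, smul_eq_mul]
  ring

theorem rf_Y1 (r : Fin m) : rf c 0 X r (Y1 c X) = 0 := by
  rw [rf_split0, Y1_succ, Matrix.mulVec_neg, mulVec_adj, Y1_zero, Y1_one]
  simp only [Pi.neg_apply, Pi.smul_apply, smul_eq_mul]
  ring

theorem yh_eq : yh c X z = fun i => 1 * Y0 c X i + z * Y1 c X i := by
  funext i
  simp [yh]

theorem rf_yh (r : Fin m) : rf c 0 X r (yh c X z) = 0 := by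
  rw [yh_eq, rf_comb, rf_Y0, rf_Y1]
  ring

theorem det_y (y : I m → S) (h : ∀ r, rf c 0 X r y = 0) (i : I m) :
    (Mx c X).det * y i = y 0 * Y0 c X i + y 1 * Y1 c X i := by
  have h1 : (Mx c X).mulVec (fun b => y b.succ.succ) =
      - (y 0 • (fun r => rf c 0 X r (Pi.single 0 1)) +
        y 1 • fun r => rf c 0 X r (Pi.single 1 1)) := by
    funext r
    have := h r
    rw [rf_split0] at this
    simp only [Pi.neg_apply, Pi.smul_apply, Pi.add_apply, smul_eq_mul]
    linear_combination this
  have h2 := congrArg (Mx c X).adjugate.mulVec h1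
  rw [adj_mulVec, Matrix.mulVec_neg, Matrix.mulVec_add, Matrix.mulVec_smul,
    Matrix.mulVec_smul] at h2
  refine Fin.cases ?_ (fun i => ?_) i
  · rw [Y0_zero, Y1_zero]; ring
  refine Fin.cases ?_ (fun i => ?_) i
  · change (Mx c X).det * y 1 = y 0 * Y0 c X 1 + y 1 * Y1 c X 1
    rw [Y0_one, Y1_one]
    ring
  · have h3 := congrFun h2 i
    have h4 := congrFun (Y0_succ c X) i
    have h5 := congrFun (Y1_succ c X) i
    simp only [Pi.neg_apply, Pi.smul_apply, Pi.add_apply, smul_eq_mul] at h3 h4 h5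
    simp only [h4, h5]
    linear_combination h3

/-- A point of the line in the factor `0`. -/
theorem det_mul_eq (y : I m → S) (h : ∀ r, rf c 0 X r y = 0) (hz : y 1 = z * y 0) (i : I m) :
    (Mx c X).det * y i = y 0 * yh c X z i := by
  rw [det_y c X y h, hz]
  simp only [yh]
  ring

theorem Fh_eq : Fh c X z = Ah c X * z ^ 2 + 2 * Bh c X * z + Ch c X := by
  simp only [Fh, Ah, Bh, Ch, yh_eq, Pf_comb_l, Pf_comb_r]
  rw [Pf_symm c 0 X (Y1 c X) (Y0 c X)]
  ring

/-- The form at a point of the line in the factor `0`. -/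
theorem sq_mul_eq (y : I m → S) (h : ∀ r, rf c 0 X r y = 0) (hz : y 1 = z * y 0) :
    (Mx c X).det ^ 2 * Pf c 0 X y y = y 0 ^ 2 * Fh c X z := by
  have h1 : (fun i => (Mx c X).det * y i) = fun i => y 0 * yh c X z i := by
    funext i
    exact det_mul_eq c X z y h hz i
  have h2 : Pf c 0 X (fun i => (Mx c X).det * y i) (fun i => (Mx c X).det * y i) =
      (Mx c X).det ^ 2 * Pf c 0 X y y := by
    rw [Pf_smul_l, Pf_smul_r]; ring
  rw [← h2, h1, Pf_smul_l, Pf_smul_r, Fh]
  ring

end line0

section linej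

variable (j : Fin (k + 1)) (X : Fin (k + 1) → I m → S)

@[simp] theorem xh_zero : xh c j X 0 = 0 := rfl

theorem xh_last : xh c j X (Fin.last (m + 1)) = (Nx c j X).det := by
  rw [← Fin.succ_last]
  unfold xh vh
  rw [Fin.cons_succ, Fin.snoc_last]

theorem xh_mid : (fun b : Fin m => xh c j X b.castSucc.succ) =
    - ((Nx c j X).adjugate.mulVec fun r => rf c j X r (Pi.single (Fin.last (m + 1)) 1)) := by
  funext b
  unfold xh vh
  rw [Fin.cons_succ, Fin.snoc_castSucc]

theorem rf_xh (r : Fin m) : rf c j X r (xh c j X) = 0 := by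
  rw [rf_splitj, xh_zero, xh_mid, xh_last, Matrix.mulVec_neg, mulVec_adj]
  simp only [Pi.neg_apply, Pi.smul_apply, smul_eq_mul]
  ring

theorem det_x (ξ : I m → S) (h : ∀ r, rf c j X r ξ = 0) (h0 : ξ 0 = 0) (i : I m) :
    (Nx c j X).det * ξ i = ξ (Fin.last (m + 1)) * xh c j X i := by
  have h1 : (Nx c j X).mulVec (fun b => ξ b.castSucc.succ) =
      - (ξ (Fin.last (m + 1)) • fun r => rf c j X r (Pi.single (Fin.last (m + 1)) 1)) := by
    funext r
    have := h r
    rw [rf_splitj, h0] at this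
    simp only [Pi.neg_apply, Pi.smul_apply, smul_eq_mul]
    linear_combination this
  have h2 := congrArg (Nx c j X).adjugate.mulVec h1
  rw [adj_mulVec, Matrix.mulVec_neg, Matrix.mulVec_smul] at h2
  refine Fin.cases ?_ (fun i => ?_) i
  · rw [h0, xh_zero]; ring
  refine Fin.lastCases ?_ (fun i => ?_) i
  · rw [Fin.succ_last, xh_last]
    ring
  · have h3 := congrFun h2 i
    have h4 := congrFun (xh_mid c j X) i
    simp only [Pi.neg_apply, Pi.smul_apply, smul_eq_mul] at h3 h4
    rw [h4]
    linear_combination h3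

end linej

/-! ## Points of the complete intersection -/

section points

variable (j : Fin (k + 1)) {X : Fin (k + 1) → I m → S}

theorem rf_self (X : Fin (k + 1) → I m → S) (r : Fin m) :
    rf c j X r (X j) = Ef c ((a j).succAbove r) X := by
  unfold rf
  rw [update_eq_self]

theorem onX_iff : OnX c X ↔ (∀ r, rf c j X r (X j) = 0) ∧ Ef c (a j) X = 0 := by
  constructor
  · intro h
    exact ⟨fun r => by rw [rf_self]; exact h _, h _⟩
  · rintro ⟨h1, h2⟩ i
    rcases Fin.eq_self_or_eq_succAbove (a j) i with h | ⟨r, h⟩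
    · rw [h]; exact h2
    · rw [h, ← rf_self]; exact h1 r

/-- The forms at the point with another coordinate in the factor `j`. -/
theorem onX_upd {v : I m → S} (h : ∀ r, rf c j X r v = 0) (h2 : Ef c (a j) (update X j v) = 0) :
    OnX c (update X j v) := by
  rw [onX_iff c j]
  refine ⟨fun r => ?_, h2⟩
  rw [update_self, rf_upd]
  exact h r

theorem nx_eq (X : Fin (k + 1) → I m → S) : nx c j X = fun i =>
    Pf c j X (xh c j X) (xh c j X) * X j i +
      (- (2 * Pf c j X (X j) (xh c j X))) * xh c j X i := by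
  funext i
  simp only [nx]
  ring

theorem ny_eq (X : Fin (k + 1) → I m → S) : ny c X = fun i =>
    Ah c X * X 0 i + (- (2 * Pf c 0 X (X 0) (Y1 c X))) * Y1 c X i := by
  funext i
  simp only [ny]
  ring

/-- The second point on a line. -/
theorem onX_second {ξ : I m → S} (h : OnX c X) (hξ : ∀ r, rf c j X r ξ = 0) :
    OnX c (update X j fun i => Pf c j X ξ ξ * X j i + (- (2 * Pf c j X (X j) ξ)) * ξ i) := by
  refine onX_upd c j (fun r => ?_) ?_
  · rw [rf_comb, rf_self, h, hξ]
    ring
  · rw [Ef_quad, update_eq_self, h, Pf_self]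
    ring

theorem onX_sg (h : OnX c X) : OnX c (sg c j X) := by
  unfold sg
  split_ifs with h0
  · subst h0
    rw [ny_eq]
    exact onX_second c 0 h fun r => rf_Y1 c X r
  · rw [nx_eq]
    exact onX_second c j h fun r => rf_xh c j X r

theorem sg_zero (X : Fin (k + 1) → I m → S) : sg c 0 X = update X 0 (ny c X) := by
  simp [sg]

theorem sg_succ (j : Fin k) (X : Fin (k + 1) → I m → S) :
    sg c j.succ X = update X j.succ (nx c j.succ X) := by
  unfold sg
  rw [if_neg (Fin.succ_ne_zero j)]

/-- The second point over `t`. -/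
theorem ny_yh (X : Fin (k + 1) → I m → S) (z w : S)
    (h : Ah c X * w = - (2 * Bh c X) - Ah c X * z) (i : I m) :
    ny c (Xz c X z) i = Ah c X * yh c X w i := by
  have h1 : Pf c 0 X (yh c X z) (Y1 c X) = Bh c X + z * Ah c X := by
    rw [yh_eq, Pf_comb_l]
    simp only [Ah, Bh]
    ring
  unfold Xz ny
  simp only [Ah_upd, update_self, Pf_upd, Y1_upd, h1, yh]
  linear_combination (- Y1 c X i) * h

theorem nx_yh (j : Fin k) (X : Fin (k + 1) → I m → S) (z : S) (i : I m) :
    nx c j.succ (Xz c X z) i = kah c j.succ X z * X j.succ i -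
      2 * psh c j.succ X z * xh c j.succ (Xz c X z) i := by
  have h : Xz c X z j.succ = X j.succ := by
    unfold Xz
    rw [update_of_ne (Fin.succ_ne_zero j)]
  simp only [nx, kah, psh, h]

end points

/-! ## The derivative of the form -/

section deriv

variable (X : Fin (k + 1) → I m → S) (ξ : I m → S) (z : S)

theorem vp_comb (α β : S) (e e' : Fin m → S) : vp c X (fun r => α * e r + β * e' r) =
    fun i => α * vp c X e i + β * vp c X e' i := by
  have h : (fun r => α * e r + β * e' r) = α • e + β • e' := by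
    funext r
    simp
  unfold vp
  rw [h, Matrix.mulVec_add, Matrix.mulVec_smul, Matrix.mulVec_smul]
  funext i
  refine Fin.cases ?_ (fun i => ?_) i
  · simp
  refine Fin.cases ?_ (fun i => ?_) i
  · simp
  · simp only [Fin.cons_succ, Pi.neg_apply, Pi.add_apply, Pi.smul_apply, smul_eq_mul]
    ring

theorem vp_smul (α : S) (e : Fin m → S) : vp c X (fun r => α * e r) =
    fun i => α * vp c X e i := by
  have := vp_comb c X α 0 e e
  simpa using this

/-- `qh` is linear in the direction. -/
theorem qh_comb (j : Fin (k + 1)) (α β : S) (ξ ξ' : I m → S) :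
    qh c j X (fun i => α * ξ i + β * ξ' i) z = α * qh c j X ξ z + β * qh c j X ξ' z := by
  unfold qh
  simp only [De_comb]
  rw [vp_comb, Pf_comb_r]
  ring

theorem Xz_succ (j : Fin k) : Xz c X z j.succ = X j.succ := by
  unfold Xz
  rw [update_of_ne (Fin.succ_ne_zero j)]

/-- The derivatives of the forms in the direction `xh`: only the form `a j` changes. -/
theorem De_xh (j : Fin (k + 1)) (Y : Fin (k + 1) → I m → S) (i : Fin (m + 1)) :
    De c i j Y (xh c j Y) = if i = a j then Pf c j Y (Y j) (xh c j Y) else 0 := by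
  split_ifs with h
  · subst h
    rw [De_eq]
  · rw [De_ne c (Ne.symm h)]
    rcases Fin.eq_self_or_eq_succAbove (a j) i with h' | ⟨r, h'⟩
    · exact absurd h' h
    · rw [h']
      exact rf_xh c j Y r

/-- For the direction `xh` of the line in the factor `j`: `qh = 2 th psh`. -/
theorem qh_psh (j : Fin (k + 1)) (z : S) :
    qh c j X (xh c j (Xz c X z)) z =
      2 * th c j X z * Pf c j (Xz c X z) (Xz c X z j) (xh c j (Xz c X z)) := by
  set P := Pf c j (Xz c X z) (Xz c X z j) (xh c j (Xz c X z)) with hP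
  have h1 : (fun r : Fin m => De c ((a 0).succAbove r) j (Xz c X z) (xh c j (Xz c X z))) =
      fun r => P * if (a 0).succAbove r = a j then 1 else 0 := by
    funext r
    rw [De_xh, mul_ite, mul_one, mul_zero]
  have h2 : De c (a 0) j (Xz c X z) (xh c j (Xz c X z)) = P * if a j = a 0 then 1 else 0 := by
    rw [De_xh, mul_ite, mul_one, mul_zero]
    simp only [eq_comm]
    rfl
  unfold qh th
  rw [h1, h2, vp_smul, Pf_smul_r]
  split_ifs <;> ring

theorem qh_psh' (j : Fin k) (z : S) :
    qh c j.succ X (xh c j.succ (Xz c X z)) z = 2 * th c j.succ X z * psh c j.succ X z := by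
  rw [qh_psh, Xz_succ]
  rfl

/-- For all `z`: `qh` is a quadratic polynomial in `z` with the leading coefficient `qa`. -/
theorem qh_eq (j : Fin k) : ∃ b e : S, ∀ z, qh c j.succ X ξ z = qa c j.succ X ξ * z ^ 2 + b * z + e := by
  obtain ⟨B, hB1, hB2, hB⟩ := De_quad c (j := j.succ) (l := 0) (Fin.succ_ne_zero j) X ξ
  have hlin : ∀ (z : S), (fun r => De c ((a 0).succAbove r) j.succ (Xz c X z) ξ) =
      fun r => 1 * De c ((a 0).succAbove r) j.succ (update X 0 (Y0 c X)) ξ +
        z * De c ((a 0).succAbove r) j.succ (update X 0 (Y1 c X)) ξ := by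
    intro z
    funext r
    unfold Xz
    rw [yh_eq, De_lin c (Fin.succAbove_ne (a 0) r).symm (Fin.succ_ne_zero j)]
  have hquad : ∀ z, De c (a 0) j.succ (Xz c X z) ξ =
      B (Y0 c X) (Y0 c X) + z * (B (Y0 c X) (Y1 c X) + B (Y1 c X) (Y0 c X)) +
        z ^ 2 * B (Y1 c X) (Y1 c X) := by
    intro z
    unfold Xz
    rw [hB, yh_eq, hB1, hB2, hB2]
    ring
  refine ⟨2 * ((Mx c X).det * (B (Y0 c X) (Y1 c X) + B (Y1 c X) (Y0 c X)) +
    (Pf c 0 X (Y0 c X) (vp c X fun r => De c ((a 0).succAbove r) j.succ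
      (update X 0 (Y1 c X)) ξ) +
    Pf c 0 X (Y1 c X) (vp c X fun r => De c ((a 0).succAbove r) j.succ
      (update X 0 (Y0 c X)) ξ))),
    2 * ((Mx c X).det * B (Y0 c X) (Y0 c X) +
      Pf c 0 X (Y0 c X) (vp c X fun r => De c ((a 0).succAbove r) j.succ
      (update X 0 (Y0 c X)) ξ)), fun z => ?_⟩
  unfold qh qa
  rw [hlin, hquad, vp_comb, hB, yh_eq, Pf_comb_l, Pf_comb_r, Pf_comb_r]
  ring

end deriv

end Pool.Agent.Helper64.HK
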