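import Mathlib
import Pool.Agent.Helper28.HN.Defs

/-!
# Complete intersections of `m + 1` ample divisors in `(P^(m+1))^(k+1)`: definitions

`a j` is the number of the form which has degree `2` in the factor `j`; all other forms have degree
`1` in this factor.  The factor `0` is `y`, the factors `j.succ` are `t`.

* `Mf c i U V`: the multilinear form with `Ef c i X = Mf c i X X`; it has one slot `U j` for every
  factor and a second slot `V j` for the factors with `a j = i`.
* `Pf c j X v w`: the polarisation of `Ef c (a j)` in the factor `j`; `Pf c j X v v` is twice the form.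
* `rf c j X r v`: the forms `Ef c i` with `i ≠ a j` as linear forms in the factor `j`.
* `De c i j X ξ`: the derivative of `Ef c i` in the factor `j` in the direction `ξ`.
* `yh c X z = (D, z D, ..)`: the point with `y 1 = z y 0` of the line in the factor `0`.
* `xh c j X = (0, .., det (Nx c j X))`: the point with first coordinate `0` of the line in the factor `j`.
* `sg c j`: the involution which changes the factor `j`.
* `Fh = Ah z^2 + 2 Bh z + Ch`: twice the form on the line in the factor `0`.
* `psh c j X z`, `kah c j X z`: `Pf (X j, ξ)` and `Pf (ξ, ξ)` for the direction `ξ` in the factor `j`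
  over the point with `X 0 = yh c X z`.
* `qh c j X ξ z`: `D` times the derivative of `Fh` in the direction `ξ` of the factor `j`, modulo `Fh`.
* `th c j X z`: the factor with `qh c j X (xh ..) z = 2 * th c j X z * psh c j X z`.
-/

namespace Pool.Agent.Helper64.HK

open Pool.Agent.Helper28.HN (I aff)

/-- Coefficients of the `m + 1` forms. -/
abbrev Ix {k m : ℕ} (a : Fin (k + 1) → Fin (m + 1)) :=
  Σ i : Fin (m + 1), (Fin (k + 1) → I m) × ({j // a j = i} → I m)

section defs

variable {k m : ℕ} {a : Fin (k + 1) → Fin (m + 1)} {S : Type*} [CommRing S]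

/-- The multilinear forms. -/
def Mf (c : Ix a → S) (i : Fin (m + 1)) (U V : Fin (k + 1) → I m → S) : S :=
  ∑ p : Fin (k + 1) → I m, ∑ q : {j // a j = i} → I m,
    c ⟨i, p, q⟩ * (∏ j, U j (p j)) * ∏ j : {j // a j = i}, V j.1 (q j)

/-- The forms. -/
def Ef (c : Ix a → S) (i : Fin (m + 1)) (X : Fin (k + 1) → I m → S) : S := Mf c i X X

/-- The point lies on the complete intersection. -/
def OnX (c : Ix a → S) (X : Fin (k + 1) → I m → S) : Prop := ∀ i, Ef c i X = 0

/-- The polarisation of the form `a j` in the factor `j`. -/
def Pf (c : Ix a → S) (j : Fin (k + 1)) (X : Fin (k + 1) → I m → S) (v w : I m → S) : S :=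
  Mf c (a j) (Function.update X j v) (Function.update X j w) +
    Mf c (a j) (Function.update X j w) (Function.update X j v)

/-- The derivative of the form `i` in the factor `j` in the direction `ξ`. -/
def De (c : Ix a → S) (i : Fin (m + 1)) (j : Fin (k + 1)) (X : Fin (k + 1) → I m → S)
    (ξ : I m → S) : S :=
  Mf c i (Function.update X j ξ) X + if a j = i then Mf c i X (Function.update X j ξ) else 0

/-- The linear forms in the factor `j`. -/
def rf (c : Ix a → S) (j : Fin (k + 1)) (X : Fin (k + 1) → I m → S) (r : Fin m)
    (v : I m → S) : S :=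
  Ef c ((a j).succAbove r) (Function.update X j v)

/-- The matrix of the equations of the line in the factor `0`, without the first two columns. -/
def Mx (c : Ix a → S) (X : Fin (k + 1) → I m → S) : Matrix (Fin m) (Fin m) S :=
  fun r b => rf c 0 X r (Pi.single b.succ.succ 1)

/-- The point with `y 1 = 0` of the line in the factor `0`. -/
noncomputable def Y0 (c : Ix a → S) (X : Fin (k + 1) → I m → S) : I m → S :=
  Fin.cons (Mx c X).det (Fin.cons 0
    (- ((Mx c X).adjugate.mulVec fun r => rf c 0 X r (Pi.single 0 1))))

/-- The point with `y 0 = 0` of the line in the factor `0`. -/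
noncomputable def Y1 (c : Ix a → S) (X : Fin (k + 1) → I m → S) : I m → S :=
  Fin.cons 0 (Fin.cons (Mx c X).det
    (- ((Mx c X).adjugate.mulVec fun r => rf c 0 X r (Pi.single 1 1))))

/-- The point with `y 1 = z * y 0` of the line in the factor `0`. -/
noncomputable def yh (c : Ix a → S) (X : Fin (k + 1) → I m → S) (z : S) : I m → S :=
  fun i => Y0 c X i + z * Y1 c X i

/-- The point over `t` with the coordinate `z`. -/
noncomputable def Xz (c : Ix a → S) (X : Fin (k + 1) → I m → S) (z : S) :
    Fin (k + 1) → I m → S := Function.update X 0 (yh c X z)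

/-- The matrix of the equations of the line in the factor `j`, without the first and the last
column. -/
def Nx (c : Ix a → S) (j : Fin (k + 1)) (X : Fin (k + 1) → I m → S) : Matrix (Fin m) (Fin m) S :=
  fun r i => rf c j X r (Pi.single i.castSucc.succ 1)

/-- The affine part of the point with first coordinate `0` of the line in the factor `j`. -/
noncomputable def vh (c : Ix a → S) (j : Fin (k + 1)) (X : Fin (k + 1) → I m → S) :
    Fin (m + 1) → S :=
  Fin.snoc (- ((Nx c j X).adjugate.mulVec fun r => rf c j X r (Pi.single (Fin.last (m + 1)) 1)))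
    (Nx c j X).det

/-- The point with first coordinate `0` of the line in the factor `j`. -/
noncomputable def xh (c : Ix a → S) (j : Fin (k + 1)) (X : Fin (k + 1) → I m → S) : I m → S :=
  Fin.cons 0 (vh c j X)

/-- The second point on the line in the factor `j`. -/
noncomputable def nx (c : Ix a → S) (j : Fin (k + 1)) (X : Fin (k + 1) → I m → S) : I m → S :=
  fun i => Pf c j X (xh c j X) (xh c j X) * X j i - 2 * Pf c j X (X j) (xh c j X) * xh c j X i

/-- Twice the form on the line in the factor `0`. -/
noncomputable def Fh (c : Ix a → S) (X : Fin (k + 1) → I m → S) (z : S) : S :=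
  Pf c 0 X (yh c X z) (yh c X z)

/-- Its coefficients. -/
noncomputable def Ah (c : Ix a → S) (X : Fin (k + 1) → I m → S) : S := Pf c 0 X (Y1 c X) (Y1 c X)

/-- Its coefficients. -/
noncomputable def Bh (c : Ix a → S) (X : Fin (k + 1) → I m → S) : S := Pf c 0 X (Y0 c X) (Y1 c X)

/-- Its coefficients. -/
noncomputable def Ch (c : Ix a → S) (X : Fin (k + 1) → I m → S) : S := Pf c 0 X (Y0 c X) (Y0 c X)

/-- The second point on the line in the factor `0`. -/
noncomputable def ny (c : Ix a → S) (X : Fin (k + 1) → I m → S) : I m → S :=
  fun i => Ah c X * X 0 i - 2 * Pf c 0 X (X 0) (Y1 c X) * Y1 c X i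

/-- The involution which changes the factor `j`. -/
noncomputable def sg (c : Ix a → S) (j : Fin (k + 1)) (X : Fin (k + 1) → I m → S) :
    Fin (k + 1) → I m → S :=
  Function.update X j (if j = 0 then ny c X else nx c j X)

/-- The linear coefficient on the line in the factor `j`. -/
noncomputable def psh (c : Ix a → S) (j : Fin (k + 1)) (X : Fin (k + 1) → I m → S) (z : S) : S :=
  Pf c j (Xz c X z) (X j) (xh c j (Xz c X z))

/-- The quadratic coefficient on the line in the factor `j`. -/
noncomputable def kah (c : Ix a → S) (j : Fin (k + 1)) (X : Fin (k + 1) → I m → S) (z : S) : S :=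
  Pf c j (Xz c X z) (xh c j (Xz c X z)) (xh c j (Xz c X z))

/-- The vertical part of the derivative: the response to the derivatives `e` of the rows. -/
noncomputable def vp (c : Ix a → S) (X : Fin (k + 1) → I m → S) (e : Fin m → S) : I m → S :=
  Fin.cons 0 (Fin.cons 0 (- ((Mx c X).adjugate.mulVec e)))

/-- The derivative of `Fh` in the direction `ξ` of the factor `j` (times `det (Mx c X)`, modulo
`Fh`). -/
noncomputable def qh (c : Ix a → S) (j : Fin (k + 1)) (X : Fin (k + 1) → I m → S) (ξ : I m → S)
    (z : S) : S :=
  2 * ((Mx c X).det * De c (a 0) j (Xz c X z) ξ +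
    Pf c 0 X (yh c X z) (vp c X fun r => De c ((a 0).succAbove r) j (Xz c X z) ξ))

/-- The leading coefficient (in `z`) of `qh c j X ξ z`. -/
noncomputable def qa (c : Ix a → S) (j : Fin (k + 1)) (X : Fin (k + 1) → I m → S) (ξ : I m → S) :
    S :=
  2 * ((Mx c X).det * De c (a 0) j (Function.update X 0 (Y1 c X)) ξ +
    Pf c 0 X (Y1 c X) (vp c X fun r => De c ((a 0).succAbove r) j
      (Function.update X 0 (Y1 c X)) ξ))

/-- `qh c j X (xh c j (Xz c X z)) z = 2 * th c j X z * psh c j X z` for `j ≠ 0`. -/
noncomputable def th (c : Ix a → S) (j : Fin (k + 1)) (X : Fin (k + 1) → I m → S) (z : S) : S :=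
  (if a j = a 0 then (Mx c X).det else 0) +
    Pf c 0 X (yh c X z) (vp c X fun r => if (a 0).succAbove r = a j then 1 else 0)

/-- `psh` as a polynomial in `z`. -/
noncomputable def psP (c : Ix a → S) (j : Fin (k + 1)) (X : Fin (k + 1) → I m → S) :
    Polynomial S :=
  psh (fun e => Polynomial.C (c e)) j (fun i l => Polynomial.C (X i l)) Polynomial.X

/-- The point of the chart of the factors `t` (the factor `0` is `0`). -/
def ct (u : Fin k × Fin (m + 1) → S) : Fin (k + 1) → I m → S :=
  Fin.cons 0 fun j => aff fun i => u (j, i)

end defs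

end Pool.Agent.Helper64.HK
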