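import Pool.Agent.Helper64.HK.Defs

/-!
# `k + 1` factors: multilinearity and compatibility with ring homomorphisms
-/

set_option autoImplicit false

namespace Pool.Agent.Helper64.HK

open Pool.Agent.Helper28.HN (I aff)
open Function Finset

variable {k m : ℕ} {a : Fin (k + 1) → Fin (m + 1)} {S : Type*} [CommRing S]

/-! ## The slots -/

theorem prod_upd (U : Fin (k + 1) → I m → S) (j : Fin (k + 1)) (v : I m → S)
    (p : Fin (k + 1) → I m) :
    ∏ l, update U j v l (p l) = v (p j) * ∏ l ∈ univ.erase j, U l (p l) := by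
  rw [← mul_prod_erase univ _ (mem_univ j), update_self]
  congr 1
  refine prod_congr rfl fun l hl => ?_
  rw [update_of_ne (ne_of_mem_erase hl)]

theorem prod_upd' {i : Fin (m + 1)} (V : Fin (k + 1) → I m → S) (j : Fin (k + 1)) (hj : a j = i)
    (v : I m → S) (q : {j // a j = i} → I m) :
    ∏ l : {j // a j = i}, update V j v l.1 (q l) =
      v (q ⟨j, hj⟩) * ∏ l ∈ univ.erase (⟨j, hj⟩ : {j // a j = i}), V l.1 (q l) := by
  rw [← mul_prod_erase univ _ (mem_univ (⟨j, hj⟩ : {j // a j = i}))]
  simp only [update_self]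
  congr 1
  refine prod_congr rfl fun l hl => ?_
  rw [update_of_ne fun h => ne_of_mem_erase hl (Subtype.ext h)]

variable (c : Ix a → S)

theorem Mf_U (i : Fin (m + 1)) (U V : Fin (k + 1) → I m → S) (j : Fin (k + 1)) (α β : S)
    (v w : I m → S) : Mf c i (update U j fun l => α * v l + β * w l) V =
      α * Mf c i (update U j v) V + β * Mf c i (update U j w) V := by
  simp only [Mf, prod_upd, mul_sum, ← sum_add_distrib]
  exact sum_congr rfl fun p _ => sum_congr rfl fun q _ => by ring

theorem Mf_V (i : Fin (m + 1)) (U V : Fin (k + 1) → I m → S) (j : Fin (k + 1)) (hj : a j = i)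
    (α β : S) (v w : I m → S) : Mf c i U (update V j fun l => α * v l + β * w l) =
      α * Mf c i U (update V j v) + β * Mf c i U (update V j w) := by
  simp only [Mf, prod_upd' _ j hj, mul_sum, ← sum_add_distrib]
  exact sum_congr rfl fun p _ => sum_congr rfl fun q _ => by ring

theorem Mf_V_ne (i : Fin (m + 1)) (U V : Fin (k + 1) → I m → S) (j : Fin (k + 1)) (hj : a j ≠ i)
    (v : I m → S) : Mf c i U (update V j v) = Mf c i U V := by
  simp only [Mf]
  refine sum_congr rfl fun p _ => sum_congr rfl fun q _ => ?_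
  congr 1
  refine prod_congr rfl fun l _ => ?_
  rw [update_of_ne fun h => hj (by rw [← h]; exact l.2)]

theorem Ef_ne {i : Fin (m + 1)} {j : Fin (k + 1)} (hj : a j ≠ i) (X : Fin (k + 1) → I m → S)
    (v : I m → S) : Ef c i (update X j v) = Mf c i (update X j v) X := by
  unfold Ef
  rw [Mf_V_ne c i _ _ j hj]

/-- A form of degree one in the factor `j`. -/
theorem Ef_comb {i : Fin (m + 1)} {j : Fin (k + 1)} (hj : a j ≠ i) (X : Fin (k + 1) → I m → S)
    (α β : S) (v w : I m → S) : Ef c i (update X j fun l => α * v l + β * w l) =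
      α * Ef c i (update X j v) + β * Ef c i (update X j w) := by
  rw [Ef_ne c hj, Ef_ne c hj, Ef_ne c hj, Mf_U]

/-! ## The polar form -/

theorem Pf_symm (j : Fin (k + 1)) (X : Fin (k + 1) → I m → S) (v w : I m → S) :
    Pf c j X v w = Pf c j X w v := by
  unfold Pf
  ring

theorem Pf_comb_l (j : Fin (k + 1)) (X : Fin (k + 1) → I m → S) (α β : S) (v v' w : I m → S) :
    Pf c j X (fun l => α * v l + β * v' l) w = α * Pf c j X v w + β * Pf c j X v' w := by
  unfold Pf
  rw [Mf_U, Mf_V c (a j) _ _ j rfl]
  ring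

theorem Pf_comb_r (j : Fin (k + 1)) (X : Fin (k + 1) → I m → S) (α β : S) (v w w' : I m → S) :
    Pf c j X v (fun l => α * w l + β * w' l) = α * Pf c j X v w + β * Pf c j X v w' := by
  rw [Pf_symm, Pf_comb_l, Pf_symm c j X w, Pf_symm c j X w']

theorem Pf_smul_l (j : Fin (k + 1)) (X : Fin (k + 1) → I m → S) (α : S) (v w : I m → S) :
    Pf c j X (fun l => α * v l) w = α * Pf c j X v w := by
  have := Pf_comb_l c j X α 0 v v w
  simpa using this

theorem Pf_smul_r (j : Fin (k + 1)) (X : Fin (k + 1) → I m → S) (α : S) (v w : I m → S) :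
    Pf c j X v (fun l => α * w l) = α * Pf c j X v w := by
  have := Pf_comb_r c j X α 0 v w w
  simpa using this

theorem Pf_zero_r (j : Fin (k + 1)) (X : Fin (k + 1) → I m → S) (v : I m → S) :
    Pf c j X v (fun _ => 0) = 0 := by
  have := Pf_smul_r c j X 0 v (fun _ => 0)
  simpa using this

theorem Pf_zero_l (j : Fin (k + 1)) (X : Fin (k + 1) → I m → S) (v : I m → S) :
    Pf c j X (fun _ => 0) v = 0 := by
  rw [Pf_symm, Pf_zero_r]

theorem Pf_self (j : Fin (k + 1)) (X : Fin (k + 1) → I m → S) (v : I m → S) :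
    Pf c j X v v = 2 * Ef c (a j) (update X j v) := by
  unfold Pf Ef
  ring

/-- A form of degree two in the factor `j`. -/
theorem Ef_quad (j : Fin (k + 1)) (X : Fin (k + 1) → I m → S) (α β : S) (v w : I m → S) :
    Ef c (a j) (update X j fun l => α * v l + β * w l) =
      α ^ 2 * Ef c (a j) (update X j v) + α * β * Pf c j X v w +
        β ^ 2 * Ef c (a j) (update X j w) := by
  unfold Pf Ef
  rw [Mf_U, Mf_V c (a j) _ _ j rfl, Mf_V c (a j) _ _ j rfl]
  ring

/-! ## The derivative -/

theorem De_ne {i : Fin (m + 1)} {j : Fin (k + 1)} (hj : a j ≠ i) (X : Fin (k + 1) → I m → S)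
    (ξ : I m → S) : De c i j X ξ = Ef c i (update X j ξ) := by
  unfold De
  rw [if_neg hj, add_zero, Ef_ne c hj]

theorem De_eq (j : Fin (k + 1)) (X : Fin (k + 1) → I m → S) (ξ : I m → S) :
    De c (a j) j X ξ = Pf c j X (X j) ξ := by
  unfold De Pf
  rw [if_pos rfl, update_eq_self]
  ring

theorem De_comb (i : Fin (m + 1)) (j : Fin (k + 1)) (X : Fin (k + 1) → I m → S) (α β : S)
    (v w : I m → S) : De c i j X (fun l => α * v l + β * w l) =
      α * De c i j X v + β * De c i j X w := by
  unfold De
  split_ifs with h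
  · rw [Mf_U, Mf_V c i _ _ j h]
    ring
  · rw [Mf_U]
    ring

/-- The derivative in the factor `j` is linear in the factor `l` if the form is. -/
theorem De_lin {i : Fin (m + 1)} {j l : Fin (k + 1)} (hl : a l ≠ i) (hjl : j ≠ l)
    (X : Fin (k + 1) → I m → S) (α β : S) (v w ξ : I m → S) :
    De c i j (update X l fun r => α * v r + β * w r) ξ =
      α * De c i j (update X l v) ξ + β * De c i j (update X l w) ξ := by
  have h1 : ∀ (Y : Fin (k + 1) → I m → S) (u : I m → S), Mf c i (update (update X l u) j ξ) Y =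
      Mf c i (update (update X j ξ) l u) Y := fun Y u => by rw [update_comm hjl.symm]
  have h2 : ∀ (u u' : I m → S), Mf c i (update X l u) (update (update X l u') j ξ) =
      Mf c i (update X l u) (update X j ξ) := fun u u' => by
    rw [update_comm hjl.symm, Mf_V_ne c i _ _ l hl]
  unfold De
  simp only [h1, h2, Mf_V_ne c i _ _ l hl]
  split_ifs with h
  · rw [Mf_U, Mf_U]
    ring
  · rw [Mf_U]
    ring

/-- The derivative in the factor `j` of the quadratic form in the factor `l`. -/
theorem De_quad {j l : Fin (k + 1)} (hjl : j ≠ l) (X : Fin (k + 1) → I m → S) (ξ : I m → S) :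
    ∃ B : (I m → S) → (I m → S) → S,
      (∀ (α β : S) (v v' w : I m → S), B (fun r => α * v r + β * v' r) w =
        α * B v w + β * B v' w) ∧
      (∀ (α β : S) (v w w' : I m → S), B v (fun r => α * w r + β * w' r) =
        α * B v w + β * B v w') ∧
      ∀ v, De c (a l) j (update X l v) ξ = B v v := by
  refine ⟨fun v w => Mf c (a l) (update (update X j ξ) l v) (update X l w) +
    if a j = a l then Mf c (a l) (update X l v) (update (update X j ξ) l w) else 0,
    fun α β v v' w => ?_, fun α β v w w' => ?_, fun v => ?_⟩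
  · simp only
    split_ifs with h
    · rw [Mf_U, Mf_U]
      ring
    · rw [Mf_U]
      ring
  · simp only
    split_ifs with h
    · rw [Mf_V c (a l) _ _ l rfl, Mf_V c (a l) _ _ l rfl]
      ring
    · rw [Mf_V c (a l) _ _ l rfl]
      ring
  · unfold De
    rw [update_comm hjl.symm]

/-! ## Naturality -/

section nat

variable {T : Type*} [CommRing T] (f : S →+* T)

theorem map_upd (X : Fin (k + 1) → I m → S) (j : Fin (k + 1)) (v : I m → S) :
    (fun l i => f (update X j v l i)) = update (fun l i => f (X l i)) j fun i => f (v i) := by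
  funext l
  by_cases h : l = j
  · subst h; simp
  · simp [h]

theorem map_Mf (i : Fin (m + 1)) (U V : Fin (k + 1) → I m → S) :
    f (Mf c i U V) = Mf (fun e => f (c e)) i (fun l i => f (U l i)) (fun l i => f (V l i)) := by
  simp only [Mf, map_sum, map_mul, map_prod]

theorem map_Ef (i : Fin (m + 1)) (X : Fin (k + 1) → I m → S) :
    f (Ef c i X) = Ef (fun e => f (c e)) i (fun l i => f (X l i)) := map_Mf c f i X X

theorem map_Pf (j : Fin (k + 1)) (X : Fin (k + 1) → I m → S) (v w : I m → S) :
    f (Pf c j X v w) = Pf (fun e => f (c e)) j (fun l i => f (X l i)) (fun i => f (v i))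
      (fun i => f (w i)) := by
  simp only [Pf, map_add, map_Mf, map_upd]

theorem map_De (i : Fin (m + 1)) (j : Fin (k + 1)) (X : Fin (k + 1) → I m → S) (ξ : I m → S) :
    f (De c i j X ξ) = De (fun e => f (c e)) i j (fun l i => f (X l i)) (fun i => f (ξ i)) := by
  unfold De
  split_ifs
  · simp only [map_add, map_Mf, map_upd]
  · simp only [map_add, map_Mf, map_upd, map_zero]

theorem map_rf (j : Fin (k + 1)) (X : Fin (k + 1) → I m → S) (r : Fin m) (v : I m → S) :
    f (rf c j X r v) = rf (fun e => f (c e)) j (fun l i => f (X l i)) r (fun i => f (v i)) := by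
  simp only [rf, map_Ef, map_upd]

theorem map_single (j : I m) (x : S) :
    (fun i => f ((Pi.single j x : I m → S) i)) = Pi.single j (f x) := by
  funext i
  by_cases h : i = j
  · subst h; simp
  · simp [h]

theorem map_cons {n : ℕ} (x : S) (v : Fin n → S) :
    (fun i => f ((Fin.cons x v : Fin (n + 1) → S) i)) =
      (Fin.cons (f x) (fun i => f (v i)) : Fin (n + 1) → T) := by
  funext i
  refine Fin.cases ?_ (fun i => ?_) i <;> simp

theorem map_Mx (X : Fin (k + 1) → I m → S) :
    f.mapMatrix (Mx c X) = Mx (fun e => f (c e)) (fun l i => f (X l i)) := by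
  ext r b
  simp only [RingHom.mapMatrix_apply, Matrix.map_apply, Mx, map_rf, map_single, map_one]

theorem map_Nx (j : Fin (k + 1)) (X : Fin (k + 1) → I m → S) :
    f.mapMatrix (Nx c j X) = Nx (fun e => f (c e)) j (fun l i => f (X l i)) := by
  ext r b
  simp only [RingHom.mapMatrix_apply, Matrix.map_apply, Nx, map_rf, map_single, map_one]

theorem map_adj (M : Matrix (Fin m) (Fin m) S) (v : Fin m → S) (i : Fin m) :
    f (M.adjugate.mulVec v i) = (f.mapMatrix M).adjugate.mulVec (fun i => f (v i)) i := by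
  rw [RingHom.map_mulVec, ← RingHom.map_adjugate]
  rfl

theorem map_det_Mx (X : Fin (k + 1) → I m → S) :
    f (Mx c X).det = (Mx (fun e => f (c e)) (fun l i => f (X l i))).det := by
  rw [RingHom.map_det, map_Mx]

theorem map_det_Nx (j : Fin (k + 1)) (X : Fin (k + 1) → I m → S) :
    f (Nx c j X).det = (Nx (fun e => f (c e)) j (fun l i => f (X l i))).det := by
  rw [RingHom.map_det, map_Nx]

theorem map_Y0 (X : Fin (k + 1) → I m → S) :
    (fun i => f (Y0 c X i)) = Y0 (fun e => f (c e)) (fun l i => f (X l i)) := by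
  unfold Y0
  rw [map_cons, map_cons, RingHom.map_det, map_Mx, map_zero]
  simp only [Pi.neg_apply, map_neg, map_adj, map_Mx, map_rf, map_single, map_one]
  rfl

theorem map_Y1 (X : Fin (k + 1) → I m → S) :
    (fun i => f (Y1 c X i)) = Y1 (fun e => f (c e)) (fun l i => f (X l i)) := by
  unfold Y1
  rw [map_cons, map_cons, RingHom.map_det, map_Mx, map_zero]
  simp only [Pi.neg_apply, map_neg, map_adj, map_Mx, map_rf, map_single, map_one]
  rfl

theorem map_yh (X : Fin (k + 1) → I m → S) (z : S) :
    (fun i => f (yh c X z i)) = yh (fun e => f (c e)) (fun l i => f (X l i)) (f z) := by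
  funext i
  simp only [yh, map_add, map_mul]
  rw [← map_Y0, ← map_Y1]

theorem map_Xz (X : Fin (k + 1) → I m → S) (z : S) :
    (fun l i => f (Xz c X z l i)) = Xz (fun e => f (c e)) (fun l i => f (X l i)) (f z) := by
  unfold Xz
  rw [map_upd, map_yh]

theorem map_vh (j : Fin (k + 1)) (X : Fin (k + 1) → I m → S) :
    (fun i => f (vh c j X i)) = vh (fun e => f (c e)) j (fun l i => f (X l i)) := by
  unfold vh
  funext i
  refine Fin.lastCases ?_ (fun i => ?_) i
  · simp only [Fin.snoc_last]
    rw [RingHom.map_det, map_Nx]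
  · simp only [Fin.snoc_castSucc, Pi.neg_apply, map_neg, map_adj, map_Nx, map_rf, map_single,
      map_one]

theorem map_xh (j : Fin (k + 1)) (X : Fin (k + 1) → I m → S) :
    (fun i => f (xh c j X i)) = xh (fun e => f (c e)) j (fun l i => f (X l i)) := by
  unfold xh
  rw [map_cons, map_zero, map_vh]

theorem map_nx (j : Fin (k + 1)) (X : Fin (k + 1) → I m → S) :
    (fun i => f (nx c j X i)) = nx (fun e => f (c e)) j (fun l i => f (X l i)) := by
  funext i
  simp only [nx, map_sub, map_mul, map_Pf, map_ofNat]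
  rw [← map_xh]

theorem map_Ah (X : Fin (k + 1) → I m → S) :
    f (Ah c X) = Ah (fun e => f (c e)) (fun l i => f (X l i)) := by
  simp only [Ah, map_Pf, map_Y1]

theorem map_Bh (X : Fin (k + 1) → I m → S) :
    f (Bh c X) = Bh (fun e => f (c e)) (fun l i => f (X l i)) := by
  simp only [Bh, map_Pf, map_Y0, map_Y1]

theorem map_Ch (X : Fin (k + 1) → I m → S) :
    f (Ch c X) = Ch (fun e => f (c e)) (fun l i => f (X l i)) := by
  simp only [Ch, map_Pf, map_Y0]

theorem map_Fh (X : Fin (k + 1) → I m → S) (z : S) :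
    f (Fh c X z) = Fh (fun e => f (c e)) (fun l i => f (X l i)) (f z) := by
  simp only [Fh, map_Pf, map_yh]

theorem map_ny (X : Fin (k + 1) → I m → S) :
    (fun i => f (ny c X i)) = ny (fun e => f (c e)) (fun l i => f (X l i)) := by
  funext i
  simp only [ny, map_sub, map_mul, map_Pf, map_ofNat, map_Ah, map_Y1]
  rw [← map_Y1]

theorem map_sg (j : Fin (k + 1)) (X : Fin (k + 1) → I m → S) :
    (fun l i => f (sg c j X l i)) = sg (fun e => f (c e)) j (fun l i => f (X l i)) := by
  unfold sg
  rw [map_upd]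
  split_ifs
  · rw [map_ny]
  · rw [map_nx]

theorem map_psh (j : Fin (k + 1)) (X : Fin (k + 1) → I m → S) (z : S) :
    f (psh c j X z) = psh (fun e => f (c e)) j (fun l i => f (X l i)) (f z) := by
  simp only [psh, map_Pf, map_Xz, map_xh]

theorem map_kah (j : Fin (k + 1)) (X : Fin (k + 1) → I m → S) (z : S) :
    f (kah c j X z) = kah (fun e => f (c e)) j (fun l i => f (X l i)) (f z) := by
  simp only [kah, map_Pf, map_Xz, map_xh]

theorem map_vp (X : Fin (k + 1) → I m → S) (e : Fin m → S) :
    (fun i => f (vp c X e i)) = vp (fun e => f (c e)) (fun l i => f (X l i)) fun r => f (e r) := by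
  unfold vp
  rw [map_cons, map_cons, map_zero]
  simp only [Pi.neg_apply, map_neg, map_adj, map_Mx]
  rfl

theorem map_qh (j : Fin (k + 1)) (X : Fin (k + 1) → I m → S) (ξ : I m → S) (z : S) :
    f (qh c j X ξ z) = qh (fun e => f (c e)) j (fun l i => f (X l i)) (fun i => f (ξ i)) (f z) := by
  simp only [qh, map_mul, map_add, map_Pf, map_ofNat, map_det_Mx, map_yh, map_De, map_Xz, map_vp]

theorem map_qa (j : Fin (k + 1)) (X : Fin (k + 1) → I m → S) (ξ : I m → S) :
    f (qa c j X ξ) = qa (fun e => f (c e)) j (fun l i => f (X l i)) (fun i => f (ξ i)) := by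
  simp only [qa, map_mul, map_add, map_Pf, map_ofNat, map_det_Mx, map_Y1, map_De, map_upd, map_vp]

theorem map_th (j : Fin (k + 1)) (X : Fin (k + 1) → I m → S) (z : S) :
    f (th c j X z) = th (fun e => f (c e)) j (fun l i => f (X l i)) (f z) := by
  simp only [th, map_add, map_Pf, map_yh, map_vp, apply_ite f, map_zero, map_one, map_det_Mx]

theorem map_psP (j : Fin (k + 1)) (X : Fin (k + 1) → I m → S) :
    (psP c j X).map f = psP (fun e => f (c e)) j (fun l i => f (X l i)) := by
  have h := map_psh (fun e => Polynomial.C (c e)) (Polynomial.mapRingHom f) j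
    (fun l i => Polynomial.C (X l i)) Polynomial.X
  simp only [Polynomial.coe_mapRingHom, Polynomial.map_C, Polynomial.map_X] at h
  exact h

theorem eval_psP (j : Fin (k + 1)) (X : Fin (k + 1) → I m → S) (z : S) :
    (psP c j X).eval z = psh c j X z := by
  have h := map_psh (fun e => Polynomial.C (c e)) (Polynomial.evalRingHom z) j
    (fun l i => Polynomial.C (X l i)) Polynomial.X
  simp only [Polynomial.coe_evalRingHom, Polynomial.eval_C, Polynomial.eval_X] at h
  exact h

theorem map_aff (u : Fin (m + 1) → S) :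
    (fun i => f ((aff u : I m → S) i)) = aff fun i => f (u i) := by
  unfold aff
  rw [map_cons, map_one]

theorem map_ct (u : Fin k × Fin (m + 1) → S) :
    (fun l i => f (ct u l i)) = ct fun e => f (u e) := by
  funext l
  refine Fin.cases ?_ (fun l => ?_) l
  · funext i
    simp [ct]
  · simp only [ct, Fin.cons_succ]
    exact map_aff f _

end nat

end Pool.Agent.Helper64.HK
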