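import Pool.Agent.Helper64.HK.Bd

/-!
# `k + 1` factors: the degree of the branch form on a line in one factor
-/

set_option autoImplicit false

namespace Pool.Agent.Helper64.HK

open Pool.Agent.Helper28.HN (I aff)
open Function Finset Polynomial

section det

variable {S : Type*} [CommRing S] {n : Type*} [Fintype n] [DecidableEq n]

theorem natDegree_det_le (N : Matrix n n S[X]) (α β : n → ℕ)
    (h : ∀ i j, (N i j).natDegree ≤ α i + β j) : N.det.natDegree ≤ ∑ i, α i + ∑ i, β i := by
  rw [Matrix.det_apply]
  refine natDegree_sum_le_of_forall_le _ _ fun σ _ => ?_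
  refine (natDegree_smul_le _ _).trans ?_
  refine (natDegree_prod_le _ _).trans ?_
  calc ∑ i, (N (σ i) i).natDegree ≤ ∑ i, (α (σ i) + β i) := sum_le_sum fun i _ => h _ _
    _ = ∑ i, α i + ∑ i, β i := by
      rw [sum_add_distrib, Equiv.sum_comp σ α]

end det

variable {k m : ℕ} {a : Fin (k + 1) → Fin (m + 1)} {S : Type*} [CommRing S] (c : Ix a → S)

/-- The polynomial line through `X` in the factor `j`. -/
noncomputable def lp (X : Fin (k + 1) → I m → S) (j : Fin (k + 1)) (ξ : I m → S) :
    Fin (k + 1) → I m → S[X] :=
  update (fun l i => C (X l i)) j fun i => C (X j i) + Polynomial.X * C (ξ i)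

theorem eval_lp (X : Fin (k + 1) → I m → S) (j : Fin (k + 1)) (ξ : I m → S) (t : S) :
    (fun l i => (lp X j ξ l i).eval t) = update X j fun i => X j i + t * ξ i := by
  funext l i
  unfold lp
  by_cases hl : l = j
  · subst hl
    rw [update_self, update_self]
    simp only [eval_add, eval_C, eval_mul, eval_X]
  · rw [update_of_ne hl, update_of_ne hl]
    simp

theorem C_upd (X : Fin (k + 1) → I m → S) (j : Fin (k + 1)) (v : I m → S) :
    (fun l i => C (update X j v l i) : Fin (k + 1) → I m → S[X]) =
      update (fun l i => C (X l i)) j fun i => C (v i) := by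
  funext l i
  by_cases hl : l = j
  · subst hl
    rw [update_self, update_self]
  · rw [update_of_ne hl, update_of_ne hl]

theorem deg_Mf (i : Fin (m + 1)) (U V : Fin (k + 1) → I m → S) (j : Fin (k + 1))
    (x ξ : I m → S) :
    (Mf (fun e => C (c e)) i
      (update (fun l i => C (U l i)) j fun i => C (x i) + Polynomial.X * C (ξ i))
      (update (fun l i => C (V l i)) j fun i => C (x i) + Polynomial.X * C (ξ i))).natDegree ≤
        if a j = i then 2 else 1 := by
  have e : (fun i => C (x i) + Polynomial.X * C (ξ i) : I m → S[X]) =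
      fun i => 1 * C (x i) + Polynomial.X * C (ξ i) := by
    funext i
    rw [one_mul]
  have hC : ∀ (U V : Fin (k + 1) → I m → S) (v w : I m → S),
      Mf (fun e => C (c e)) i (update (fun l i => C (U l i)) j fun i => C (v i))
        (update (fun l i => C (V l i)) j fun i => C (w i)) =
        (C (Mf c i (update U j v) (update V j w)) : S[X]) := by
    intro U V v w
    rw [map_Mf, C_upd, C_upd]
  rw [e, Mf_U]
  split_ifs with h
  · rw [Mf_V (fun e => C (c e)) i _ _ j h, Mf_V (fun e => C (c e)) i _ _ j h, hC, hC, hC, hC]
    compute_degree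
  · have h2 : ∀ (U' : Fin (k + 1) → I m → S[X]) (v : I m → S[X]),
        Mf (fun e => C (c e)) i U' (update (fun l i => C (V l i)) j v) =
          Mf (fun e => C (c e)) i U' (update (fun l i => C (V l i)) j fun i => C (x i)) := by
      intro U' v
      rw [Mf_V_ne (fun e => C (c e)) i _ _ j h, Mf_V_ne (fun e => C (c e)) i _ _ j h]
    rw [h2, h2 (update (fun l i => C (U l i)) j fun l => C (ξ l)), hC, hC]
    compute_degree

theorem lp_upd (X : Fin (k + 1) → I m → S) (j : Fin k) (ξ : I m → S) (v : I m → S) :
    update (lp X j.succ ξ) 0 (fun i => C (v i)) =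
      update (fun l i => C (update X 0 v l i)) j.succ
        fun i => C (X j.succ i) + Polynomial.X * C (ξ i) := by
  unfold lp
  rw [C_upd, update_comm (Fin.succ_ne_zero j)]

theorem C_single (i : I m) : (Pi.single i 1 : I m → S[X]) = fun l => C ((Pi.single i 1 : I m → S) l) := by
  rw [map_single, map_one]

theorem deg_Qm (X : Fin (k + 1) → I m → S) (j : Fin k) (ξ : I m → S) (i i' : Fin 2 ⊕ Fin m) :
    (Qm (fun e => C (c e)) (lp X j.succ ξ) i i').natDegree ≤
      if a j.succ = a 0 then 2 else 1 := by
  unfold Qm Pf
  rw [C_single, C_single, lp_upd, lp_upd]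
  refine (natDegree_add_le _ _).trans (max_le ?_ ?_)
  · exact deg_Mf c (a 0) _ _ j.succ (X j.succ) ξ
  · exact deg_Mf c (a 0) _ _ j.succ (X j.succ) ξ

theorem deg_rf (X : Fin (k + 1) → I m → S) (j : Fin k) (ξ : I m → S) (r : Fin m) (i : I m) :
    (rf (fun e => C (c e)) 0 (lp X j.succ ξ) r (Pi.single i 1)).natDegree ≤
      if a j.succ = (a 0).succAbove r then 2 else 1 := by
  unfold rf Ef
  rw [C_single, lp_upd]
  exact deg_Mf c _ _ _ j.succ (X j.succ) ξ

theorem deg_row (X : Fin (k + 1) → I m → S) (j : Fin k) (ξ : I m → S) (r : Fin m)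
    (i : Fin 2 ⊕ Fin m) : (Matrix.fromCols (R0m (fun e => C (c e)) (lp X j.succ ξ))
      (Mx (fun e => C (c e)) (lp X j.succ ξ)) r i).natDegree ≤
      if a j.succ = (a 0).succAbove r then 2 else 1 := by
  rcases i with i | i
  · exact deg_rf c X j ξ r _
  · exact deg_rf c X j ξ r _

/-- The degree of the branch form on a line in one factor. -/
theorem deg_bd (X : Fin (k + 1) → I m → S) (j : Fin k) (ξ : I m → S) :
    (bd (fun e => C (c e)) (lp X j.succ ξ)).natDegree ≤ 2 * (m + 2) := by
  unfold bd
  rw [natDegree_neg]
  by_cases h : a j.succ = a 0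
  · have hr : ∀ r : Fin m, a j.succ ≠ (a 0).succAbove r := fun r => by
      rw [h]
      exact (Fin.succAbove_ne (a 0) r).symm
    refine (natDegree_det_le _ (Sum.elim (fun _ => 1) fun _ => 0)
      (Sum.elim (fun _ => 1) fun _ => 0) ?_).trans ?_
    · rintro (i | i) (i' | i')
      · have := deg_Qm c X j ξ i i'
        rw [if_pos h] at this
        exact this
      · have := deg_row c X j ξ i' i
        rw [if_neg (hr i')] at this
        simp only [bor, Matrix.fromBlocks_apply₁₂, Matrix.neg_apply, Matrix.transpose_apply,
          natDegree_neg, Sum.elim_inl, Sum.elim_inr]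
        exact this
      · have := deg_row c X j ξ i i'
        rw [if_neg (hr i)] at this
        simp only [bor, Matrix.fromBlocks_apply₂₁, Sum.elim_inl, Sum.elim_inr]
        exact this
      · simp [bor]
    · simp only [Fintype.sum_sum_type, Sum.elim_inl, Sum.elim_inr, sum_const, card_univ,
        Fintype.card_fin, Fintype.card_sum, smul_eq_mul]
      omega
  · obtain ⟨r0, hr0⟩ := Fin.exists_succAbove_eq h
    have hr : ∀ r : Fin m, (if a j.succ = (a 0).succAbove r then 2 else 1) =
        1 + if r = r0 then 1 else 0 := by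
      intro r
      rw [← hr0]
      by_cases hr : r = r0
      · rw [if_pos (by rw [hr]), if_pos hr]
      · rw [if_neg fun h => hr (Fin.succAbove_right_injective h).symm, if_neg hr]
    refine (natDegree_det_le _
      (Sum.elim (fun _ => 1) fun r : Fin m => 1 + if r = r0 then 1 else 0)
      (Sum.elim (fun _ => 0) fun r : Fin m => if r = r0 then 1 else 0) ?_).trans ?_
    · rintro (i | i) (i' | i')
      · have := deg_Qm c X j ξ i i'
        rw [if_neg h] at this
        exact this
      · have := deg_row c X j ξ i' i
        rw [hr i'] at this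
        simp only [bor, Matrix.fromBlocks_apply₁₂, Matrix.neg_apply, Matrix.transpose_apply,
          natDegree_neg, Sum.elim_inl, Sum.elim_inr]
        exact this
      · have := deg_row c X j ξ i i'
        rw [hr i] at this
        simp only [bor, Matrix.fromBlocks_apply₂₁, Sum.elim_inl, Sum.elim_inr]
        exact this
      · simp [bor]
    · simp only [Fintype.sum_sum_type, Sum.elim_inl, Sum.elim_inr, sum_const, card_univ,
        Fintype.card_fin, Fintype.card_sum, smul_eq_mul, sum_add_distrib, sum_ite_eq', mem_univ,
        if_true]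
      omega

end Pool.Agent.Helper64.HK
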