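import Pool.Agent.Helper64.HK.Mems

/-!
# `k + 1` factors: the closure of the points over a curve of genus one
-/

set_option autoImplicit false

namespace Pool.Agent.Helper64.HK

open Pool.Agent.Helper28.HN (I aff)
open Pool.Agent.Helper37.HK (sc)
open Pool.Agent.Helper24.HK
open Function Finset Polynomial

section ring

variable {k m : ℕ} {a : Fin (k + 1) → Fin (m + 1)} {S S' : Type*} [CommRing S] [CommRing S']

/-- The point of the line in the factor `0` over `X` which is given by `w`, with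
`Bh ^ 2 - Ah * Ch = (s * w) ^ 2`. -/
noncomputable def Gam (c : Ix a → S) (X : Fin (k + 1) → I m → S) (r : S) :
    Fin (k + 1) → I m → S :=
  update X 0 fun i => Ah c X * Y0 c X i + (- Bh c X + r) * Y1 c X i

theorem map_Gam (f : S →+* S') (c : Ix a → S) (X : Fin (k + 1) → I m → S) (r : S) :
    (fun l i => f (Gam c X r l i)) = Gam (fun e => f (c e)) (fun l i => f (X l i)) (f r) := by
  unfold Gam
  rw [map_upd]
  congr 1
  funext i
  simp only [map_add, map_mul, map_neg, map_Ah, map_Bh]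
  rw [← map_Y0, ← map_Y1]

/-- The form at the point. -/
theorem Gam_Pf (c : Ix a → S) (X : Fin (k + 1) → I m → S) (r : S)
    (h : Bh c X ^ 2 - Ah c X * Ch c X = r ^ 2) :
    Pf c 0 X (fun i => Ah c X * Y0 c X i + (- Bh c X + r) * Y1 c X i)
      (fun i => Ah c X * Y0 c X i + (- Bh c X + r) * Y1 c X i) = 0 := by
  rw [Pf_comb_l, Pf_comb_r, Pf_comb_r, Pf_symm c 0 X (Y1 c X) (Y0 c X)]
  change Ah c X * (Ah c X * Ch c X + (- Bh c X + r) * Bh c X) +
    (- Bh c X + r) * (Ah c X * Bh c X + (- Bh c X + r) * Ah c X) = 0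
  linear_combination (- Ah c X) * h

end ring

section field

variable {k m : ℕ} {a : Fin (k + 1) → Fin (m + 1)} {E : Type*} [Field E] {K : Subfield E}
  {c : Ix a → E}

theorem onX_Gam (h2 : (2 : E) ≠ 0) {X : Fin (k + 1) → I m → E} {r : E}
    (h : Bh c X ^ 2 - Ah c X * Ch c X = r ^ 2) : OnX c (Gam c X r) := by
  unfold Gam
  refine onX_upd c 0 (fun i => ?_) ?_
  · rw [rf_comb, rf_Y0, rf_Y1, mul_zero, mul_zero, add_zero]
  · have h3 := Pf_self c 0 X fun i => Ah c X * Y0 c X i + (- Bh c X + r) * Y1 c X i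
    rw [Gam_Pf c X r h] at h3
    exact (mul_eq_zero.1 h3.symm).resolve_left h2

theorem Gam_eq {X : Fin (k + 1) → I m → E} {z : E} :
    Gam c X (Ah c X * z + Bh c X) = update X 0 fun i => Ah c X * yh c X z i := by
  unfold Gam
  congr 1
  funext i
  unfold yh
  ring

theorem mem_Gam (hc : ∀ e, c e ∈ K) {X : Fin (k + 1) → I m → E} (hX : ∀ l i, X l i ∈ K) {r : E}
    (hr : r ∈ K) (l : Fin (k + 1)) (i : I m) : Gam c X r l i ∈ K := by
  have h := congrFun (congrFun (map_Gam K.subtype (fun e => (⟨c e, hc e⟩ : K))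
    (fun l i => (⟨X l i, hX l i⟩ : K)) ⟨r, hr⟩) l) i
  have h2 : Gam c X r l i = _ := h.symm
  rw [h2]
  exact (Gam (fun e => (⟨c e, hc e⟩ : K)) (fun l i => (⟨X l i, hX l i⟩ : K)) ⟨r, hr⟩ l i).2

/-- The points over a curve, for infinitely many parameters rational. -/
theorem zc_Gam (h2 : (2 : E) ≠ 0) (hc : ∀ e, c e ∈ K) (P : Fin (k + 1) → I m → E[X])
    (hP : ∀ t ∈ K, ∀ l i, (P l i).eval t ∈ K) (s q : E[X]) (hs : ∀ t ∈ K, s.eval t ∈ K)
    (hsq : ∀ t : E, Bh c (fun l i => (P l i).eval t) ^ 2 -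
      Ah c (fun l i => (P l i).eval t) * Ch c (fun l i => (P l i).eval t) =
        s.eval t ^ 2 * q.eval t)
    (hinf : {t : E | t ∈ K ∧ ∃ w ∈ K, w ≠ 0 ∧ w ^ 2 = q.eval t}.Infinite) (t w : E)
    (hw : w ^ 2 = q.eval t) :
    Gam c (fun l i => (P l i).eval t) (s.eval t * w) ∈ Helper24.HK.Zc (K : Set E) c := by
  intro F hF
  -- the value of `F` at the points of the curve
  let cc : Ix a → E[X][X] := fun e => C (C (c e))
  let PP : Fin (k + 1) → I m → E[X][X] := fun l i => C (P l i)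
  let G : E[X][X] := MvPolynomial.eval₂ ((C : E[X] →+* E[X][X]).comp (C : E →+* E[X]))
    (fun e => Gam cc PP (C s * X) e.1 e.2) F
  have hev : ∀ t w : E, evalEval t w G =
      MvPolynomial.eval (fun e => Gam c (fun l i => (P l i).eval t) (s.eval t * w) e.1 e.2) F := by
    intro t w
    have h := MvPolynomial.eval₂_comp_left (evalEvalRingHom t w)
      ((C : E[X] →+* E[X][X]).comp (C : E →+* E[X])) (fun e => Gam cc PP (C s * X) e.1 e.2) F
    have e1 : (evalEvalRingHom t w).comp ((C : E[X] →+* E[X][X]).comp (C : E →+* E[X])) =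
        RingHom.id E := by
      ext x
      simp [evalEvalRingHom, evalEval]
    have e2 : (evalEvalRingHom t w) ∘ (fun e : Fin (k + 1) × I m => Gam cc PP (C s * X) e.1 e.2) =
        fun e => Gam c (fun l i => (P l i).eval t) (s.eval t * w) e.1 e.2 := by
      funext e
      have h3 := congrFun (congrFun (map_Gam (evalEvalRingHom t w) cc PP (C s * X)) e.1) e.2
      have e3 : (fun x => evalEvalRingHom t w (cc x)) = c := by
        funext x
        simp [cc, evalEvalRingHom, evalEval]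
      have e4 : (fun l i => evalEvalRingHom t w (PP l i)) = fun l i => (P l i).eval t := by
        funext l i
        simp [PP, evalEvalRingHom, evalEval]
      have e5 : evalEvalRingHom t w (C s * X) = s.eval t * w := by
        simp [evalEvalRingHom, evalEval]
      rw [e3, e4, e5] at h3
      exact h3
    rw [e1, e2] at h
    exact h
  have hmon : (X ^ 2 - C q : E[X][X]).Monic := monic_X_pow_sub_C q two_ne_zero
  obtain ⟨b0, b1, hb⟩ : ∃ b0 b1 : E[X], G %ₘ (X ^ 2 - C q) = C b1 * X + C b0 := by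
    have hd : (G %ₘ (X ^ 2 - C q)).degree < (X ^ 2 - C q : E[X][X]).degree :=
      degree_modByMonic_lt _ hmon
    rw [degree_X_pow_sub_C (by norm_num : 0 < 2)] at hd
    refine ⟨_, _, eq_X_add_C_of_degree_le_one ?_⟩
    exact Order.le_of_lt_succ (by
      refine lt_of_lt_of_le hd ?_
      rfl)
  have hval : ∀ t w : E, w ^ 2 = q.eval t → evalEval t w G = b1.eval t * w + b0.eval t := by
    intro t w hw
    have h := congrArg (evalEvalRingHom t w) (modByMonic_add_div G (X ^ 2 - C q))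
    rw [map_add, map_mul, hb] at h
    have e1 : evalEvalRingHom t w (X ^ 2 - C q) = 0 := by
      simp [evalEvalRingHom, evalEval, hw]
    rw [e1, zero_mul, add_zero] at h
    have e2 : evalEvalRingHom t w (C b1 * X + C b0) = b1.eval t * w + b0.eval t := by
      simp [evalEvalRingHom, evalEval]
    rw [e2] at h
    exact h.symm
  have hzero : ∀ t ∈ {t : E | t ∈ K ∧ ∃ w ∈ K, w ≠ 0 ∧ w ^ 2 = q.eval t},
      b1.eval t = 0 ∧ b0.eval t = 0 := by
    rintro t ⟨ht, w, hwK, hw0, hw⟩
    have key : ∀ w ∈ K, w ^ 2 = q.eval t → b1.eval t * w + b0.eval t = 0 := by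
      intro w hwK hw
      rw [← hval t w hw, hev]
      refine hF _ ⟨mem_Gam hc (hP t ht) (K.mul_mem (hs t ht) hwK), onX_Gam h2 ?_⟩
      rw [hsq, mul_pow, hw]
    have k1 := key w hwK hw
    have k2 := key (-w) (K.neg_mem hwK) (by rw [neg_sq, hw])
    have k3 : b0.eval t = 0 := by
      have : 2 * b0.eval t = 0 := by linear_combination k1 + k2
      exact (mul_eq_zero.1 this).resolve_left h2
    refine ⟨?_, k3⟩
    rw [k3, add_zero] at k1
    exact (mul_eq_zero.1 k1).resolve_right hw0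
  have hb1 : b1 = 0 := eq_zero_of_infinite_isRoot b1 (hinf.mono fun t ht => (hzero t ht).1)
  have hb0 : b0 = 0 := eq_zero_of_infinite_isRoot b0 (hinf.mono fun t ht => (hzero t ht).2)
  rw [← hev, hval t w hw, hb1, hb0, eval_zero, zero_mul, add_zero]

/-- The points over a curve of genus one. -/
theorem zc_curve (h2 : (2 : E) ≠ 0) (hK : (K : Set E).Infinite) (hc : ∀ e, c e ∈ K)
    (P : Fin (k + 1) → I m → E[X])
    (hP : ∀ t ∈ K, ∀ l i, (P l i).eval t ∈ K) (s q : E[X]) (hs : ∀ t ∈ K, s.eval t ∈ K)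
    (hsq : ∀ t : E, Bh c (fun l i => (P l i).eval t) ^ 2 -
      Ah c (fun l i => (P l i).eval t) * Ch c (fun l i => (P l i).eval t) =
        s.eval t ^ 2 * q.eval t)
    (hinf : {t : E | t ∈ K ∧ ∃ w ∈ K, w ≠ 0 ∧ w ^ 2 = q.eval t}.Infinite) (t z : E)
    (hF : Fh c (fun l i => (P l i).eval t) z = 0) (hA : Ah c (fun l i => (P l i).eval t) ≠ 0)
    (hst : s.eval t ≠ 0) :
    Xz c (fun l i => (P l i).eval t) z ∈ Helper24.HK.Zc (K : Set E) c := by
  set X : Fin (k + 1) → I m → E := fun l i => (P l i).eval t with hX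
  have hw : ((Ah c X * z + Bh c X) / s.eval t) ^ 2 = q.eval t := by
    have h3 := hsq t
    rw [← hX] at h3
    rw [Fh_eq] at hF
    rw [div_pow, div_eq_iff (pow_ne_zero 2 hst)]
    linear_combination Ah c X * hF + h3
  have h3 := zc_Gam h2 hc P hP s q hs hsq hinf t _ hw
  rw [← hX, mul_div_cancel₀ _ hst, Gam_eq] at h3
  have h4 := (cl_zc hK hc).hsc (update 1 0 (Ah c X)⁻¹) _ h3
  rw [Helper37.HK.sc_single, update_self, update_idem] at h4
  have h5 : (fun i => (Ah c X)⁻¹ * (Ah c X * yh c X z i)) = yh c X z := by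
    funext i
    rw [← mul_assoc, inv_mul_cancel₀ hA, one_mul]
  rw [h5] at h4
  exact h4

end field

end Pool.Agent.Helper64.HK
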