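import Pool.Agent.Helper64.HK.Mems

/-!
# `k + 1` factors: MEMS and the first state
-/

set_option autoImplicit false

namespace Pool.Agent.Helper64.HK.P

open Pool.Agent.Helper28.HN (I aff)
open Pool.Agent.Helper24.HK Pool.Agent.Helper24.HM Pool.Agent.Helper64.HK
open Function Finset

/-- The points of the closure. The first graph is given by the line in the factor
`s.f.succ` over the point of the letter `none`. -/
theorem exists_mems {p : ℕ} [Fact p.Prime] (_hp : p ≠ 2) {k m : ℕ} {a : Fin (k + 1) → Fin (m + 1)}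
    (c : Ix a → ℤ_[p]) (s : Sel k m) (x : Un k m → ℤ_[p]) (h : Cfg c s x)
    (L : LocM p (k * (m + 1)) (Fin k)) (hL : IsLoc c L) (R : RefM L (Lt k m)) (hR : IsRef s x R)
    (K : Subfield ℚ_[p]) (hc : ∀ e, (c e : ℚ_[p]) ∈ K) (hx : ∀ i, (x i : ℚ_[p]) ∈ K) :
    ∃ M : MemsM L R,
      (∀ N x z, M.Mem N x z ↔
        cq (Xz c (ct (tr x)) z) ∈ Helper24.HK.Zc (K : Set ℚ_[p]) fun e => (c e : ℚ_[p])) ∧
      (∀ N x z, M.Mem' N x z ↔
        cq (Xz c (ct (tr x)) z) ∈ Helper24.HK.Zc (K : Set ℚ_[p]) fun e => (c e : ℚ_[p])) ∧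
      ∃ x0, StM M none (some s.j) 2 0 x0 := by
  have hF : ∀ y z, L.F y z = (Mx c (ct (tr y))).det * Fh c (ct (tr y)) z := by
    intro y z
    rw [LocM.F, hL.hA, hL.hB, hL.hC, Fh_eq]
    ring
  have hD : ∀ y : Fin (k * (m + 1)) → ℤ_[p], ‖y - R.u0‖ ≤ (p : ℝ) ^ (-2 : ℤ) →
      (Mx c (ct (tr y))).det ≠ 0 := by
    intro y hy
    rw [hR.u0] at hy
    exact det_ne h hy
  have hroot : ∀ (y : Fin (k * (m + 1)) → ℤ_[p]) (z w : ℤ_[p]), L.A y ≠ 0 →
      (∀ v, L.F y v = L.A y * (v - z) * (v - w)) →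
      Ah c (ct (tr y)) ≠ 0 ∧ Ah c (ct (tr y)) * w =
        - (2 * Bh c (ct (tr y))) - Ah c (ct (tr y)) * z := by
    intro y z w hAx hv
    rw [hL.hA] at hAx
    have hD := left_ne_zero_of_mul hAx
    refine ⟨right_ne_zero_of_mul hAx, ?_⟩
    refine other_root (C := Ch c (ct (tr y))) fun v => ?_
    have := hv v
    rw [hF, hL.hA, Fh_eq] at this
    refine mul_left_cancel₀ hD ?_
    rw [this]
    ring
  have mon : ∀ (N : ℕ) (y : Fin (k * (m + 1)) → ℤ_[p]) (z : ℤ_[p]),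
      Zp K c (cq (Xz c (ct (tr y)) z)) → L.F y z = 0 := fun N y z hM => by
    rw [hF, zp_F hc hM, mul_zero]
  set M : MemsM L R := MemsM.mk
    (fun _ y z => Zp K c (cq (Xz c (ct (tr y)) z)))
    (fun _ y z => Zp K c (cq (Xz c (ct (tr y)) z)))
    mon mon
    (fun l N y z t hy hM hk ht => by
      rw [hL.hxi]
      rw [hL.hkap, hL.hpsi] at ht
      rw [hL.hkap] at hk
      have hne : th c l.succ (ct (tr y)) z * kah c l.succ (ct (tr y)) z ≠ 0 := by
        intro h0
        rw [h0, norm_zero] at hk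
        exact zero_ne_one hk
      refine mm_zp hc (zp_nx hc l (zp_mm (hD y hy) hM) (right_ne_zero_of_mul hne) ?_)
      refine mul_left_cancel₀ (left_ne_zero_of_mul hne) ?_
      linear_combination ht)
    (fun l y z hy h1 h2 h3 => by
      rw [hL.hA] at h1
      rw [hL.hB] at h2
      rw [hL.hC] at h3
      have hD := hD y hy
      obtain ⟨d, hd, -⟩ := hL.hd l y (vh c l.succ (Xz c (ct (tr y)) z))
      have h4 := hd z
      have h5 : Fh c (ct (tr y)) z = 0 := by
        refine mul_left_cancel₀ hD ?_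
        rw [Fh_eq]
        linear_combination z ^ 2 * h1 + z * h2 + h3
      have h6 : (Fin.cons 0 (vh c l.succ (Xz c (ct (tr y)) z)) : I m → ℤ_[p]) =
          xh c l.succ (Xz c (ct (tr y)) z) := rfl
      rw [h5, h6, qh_psh', mul_zero, add_zero] at h4
      rw [hL.hpsi, hL.hxi, h4])
    (fun N y z w hy hM hAx hv => by
      obtain ⟨h1, h2⟩ := hroot _ _ _ hAx hv
      exact mm_zp hc (zp_ny hc (zp_mm (hD y hy) hM) h1 h2)) with hMdef
  refine ⟨M, fun N y z => Iff.rfl, fun N y z => Iff.rfl, ?_⟩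
  have hu : R.u0 = tr' fun q => x (.inl q) := hR.u0
  have hpt : ct (tr R.u0) = pt x := by rw [hu, pt_eq]
  have hzy : R.z R.y = x (.inr none) := by rw [hR.z, hR.y]
  have hzj : R.z R.j = x (.inr (some s.j)) := by rw [hR.z, hR.j]
  obtain ⟨d, hd, hd2⟩ := hL.hd s.f R.u0 (vh c s.f.succ (Xz c (pt x) (x (.inr none))))
  have hxi0 : (Fin.cons 0 (vh c s.f.succ (Xz c (pt x) (x (.inr none)))) : I m → ℤ_[p]) =
      xz c s x none := rfl
  rw [hpt, hxi0] at hd hd2
  have hq1 : ‖qh c s.f.succ (pt x) (xz c s x none) (x (.inr (some s.j)))‖ = 1 :=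
    PadicInt.isUnit_iff.1 (unit_q h)
  have hDu : ‖(Mx c (pt x)).det‖ = 1 := PadicInt.isUnit_iff.1 (isUnit_D h)
  have hlt : (p : ℝ) ^ (-2 : ℤ) < 1 := by
    have h4 : (1 : ℝ) < p := by exact_mod_cast (Fact.out : p.Prime).one_lt
    exact zpow_lt_one_of_neg₀ h4 (by norm_num)
  have key := start M (Helper24.HK.em s.f (vh c s.f.succ (Xz c (pt x) (x (.inr none))))) ?_ ?_ ?_ ?_
  · rw [hR.y, hR.j] at key
    exact key
  · rw [hzj, hd]
    have h1 : ‖d * Fh c (pt x) (x (.inr (some s.j)))‖ < 1 := by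
      rw [norm_mul]
      refine lt_of_le_of_lt ?_ hlt
      exact (mul_le_mul (PadicInt.norm_le_one _) (norm_Fh h _) (norm_nonneg _) zero_le_one).trans
        (by rw [one_mul])
    rw [IsUltrametricDist.norm_add_eq_max_of_norm_ne_norm (by rw [hq1]; exact h1.ne'), hq1,
      max_eq_left h1.le]
  · rw [hzj, hd, hd2, hL.hA, hF, hpt]
    have e : (Mx c (pt x)).det * Ah c (pt x) *
        (qh c s.f.succ (pt x) (xz c s x none) (x (.inr (some s.j))) +
          d * Fh c (pt x) (x (.inr (some s.j)))) -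
        (qa c s.f.succ (pt x) (xz c s x none) + d * Ah c (pt x)) *
          ((Mx c (pt x)).det * Fh c (pt x) (x (.inr (some s.j)))) =
        (Mx c (pt x)).det * (Ah c (pt x) *
          qh c s.f.succ (pt x) (xz c s x none) (x (.inr (some s.j))) -
          qa c s.f.succ (pt x) (xz c s x none) * Fh c (pt x) (x (.inr (some s.j)))) := by
      ring
    rw [e, norm_mul, hDu, one_mul, h.hst]
  · intro t _
    rw [hF, hzy, hu]
    have h1 := mm_zp hc (zp_line hc h hx t)
    rw [zp_F hc h1, mul_zero]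
  · intro t w _ hAx hv
    rw [hzy] at hv
    obtain ⟨h1, h2⟩ := hroot _ _ _ hAx hv
    rw [hu] at h1 h2 ⊢
    exact mm_zp hc (zp_ny hc (zp_line hc h hx t) h1 h2)

end Pool.Agent.Helper64.HK.P
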