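import Pool.Agent.Helper64.HK.Curve
import Pool.Agent.Helper64.HK.BdDeg
import Pool.Agent.Helper63.CY.Pts
import Pool.Agent.Helper37.HK.Zch

/-!
# `k + 1` factors: curves of genus one and rational curves over number fields
-/

set_option autoImplicit false

namespace Pool.Agent.Helper64.HK

open Pool.Agent.Helper28.HN (I aff)
open Pool.Agent.Helper24.HK
open Finset Polynomial

/-- The part of a polynomial without squares. -/
theorem exists_sqf {K : Type*} [Field K] [CharZero K] (g : K[X])
    (hn : ∀ (e : K) (r : K[X]), g ≠ C e * r ^ 2) :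
    ∃ r g' : K[X], g = r ^ 2 * g' ∧ g'.Separable ∧ 1 ≤ g'.natDegree ∧
      g'.natDegree ≤ g.natDegree := by
  induction hN : g.natDegree using Nat.strong_induction_on generalizing g with
  | _ N ih =>
    have hg0 : g ≠ 0 := by
      intro h
      exact hn 0 0 (by rw [h]; simp)
    by_cases hsq : Squarefree g
    · refine ⟨1, g, by ring, PerfectField.separable_iff_squarefree.2 hsq, ?_, hN.le⟩
      by_contra h
      have h0 : g.natDegree = 0 := by omega
      refine hn (g.coeff 0) 1 ?_
      rw [one_pow, mul_one]
      exact eq_C_of_natDegree_eq_zero h0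
    · unfold Squarefree at hsq
      push Not at hsq
      obtain ⟨x, ⟨g1, hx⟩, hu⟩ := hsq
      have hx0 : x ≠ 0 := by
        rintro rfl
        apply hg0
        rw [hx]
        ring
      have hg1 : g1 ≠ 0 := by
        rintro rfl
        apply hg0
        rw [hx]
        ring
      have hxd : 1 ≤ x.natDegree := by
        by_contra h
        have h0 : x.natDegree = 0 := by omega
        apply hu
        rw [eq_C_of_natDegree_eq_zero h0] at hx0 ⊢
        exact (isUnit_iff_ne_zero.2 fun h => hx0 (by rw [h, map_zero])).map C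
      have hdeg : g.natDegree = x.natDegree + x.natDegree + g1.natDegree := by
        rw [hx, natDegree_mul (mul_ne_zero hx0 hx0) hg1, natDegree_mul hx0 hx0]
      obtain ⟨r, g', h1, h2, h3, h4⟩ := ih g1.natDegree (by omega) g1 (fun e r h => by
        refine hn e (x * r) ?_
        rw [hx, h]
        ring) rfl
      exact ⟨x * r, g', by rw [hx, h1]; ring, h2, h3, by omega⟩

/-- Infinitely many square values after a finite extension. -/
theorem exists_inf {K : Type} [Field K] [NumberField K] (g : K[X])
    (hn : ∀ (e : K) (r : K[X]), g ≠ C e * r ^ 2) (hd : g.natDegree ≤ 4) :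
    ∃ (L : Type) (_ : Field L) (_ : NumberField L) (_ : Algebra K L),
      {t : L | ∃ w : L, w ≠ 0 ∧ w ^ 2 = (g.map (algebraMap K L)).eval t}.Infinite := by
  classical
  obtain ⟨r, g', h1, h2, h3, h4⟩ := exists_sqf g hn
  obtain ⟨L, iL, aL, hfin, hinf⟩ := Helper63.CY.exists_points K g' h2 h3 (h4.trans hd)
  have : NumberField L := NumberField.of_module_finite K L
  refine ⟨L, iL, this, aL, fun hf => hinf ?_⟩
  have hg0 : g.map (algebraMap K L) ≠ 0 := by
    rw [Ne, Polynomial.map_eq_zero]
    intro h
    exact hn 0 0 (by rw [h]; simp)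
  have hz : {t : L | (g.map (algebraMap K L)).eval t = 0}.Finite :=
    (g.map (algebraMap K L)).roots.toFinset.finite_toSet.subset fun t ht => by
      simp only [mem_coe, Multiset.mem_toFinset, mem_roots hg0, IsRoot.def]
      exact ht
  have hsq : ∀ b : L, {w : L | w ^ 2 = b}.Finite := by
    intro b
    by_cases h : ∃ w0 : L, w0 ^ 2 = b
    · obtain ⟨w0, rfl⟩ := h
      refine Set.Finite.subset (Set.toFinite {w0, -w0}) fun w hw => ?_
      rcases sq_eq_sq_iff_eq_or_eq_neg.1 hw with h | h
      · exact Or.inl h
      · exact Or.inr h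
    · refine Set.Finite.subset Set.finite_empty fun w hw => ?_
      exact h ⟨w, hw⟩
  refine Set.Finite.subset ((hf.union hz).biUnion fun t _ =>
    (hsq (aeval t g')).image fun w => (t, w)) ?_
  rintro ⟨t, w⟩ hw
  refine Set.mem_iUnion₂.2 ⟨t, ?_, w, hw, rfl⟩
  by_cases h0 : (g.map (algebraMap K L)).eval t = 0
  · exact Or.inr h0
  · left
    have e : (g.map (algebraMap K L)).eval t = ((r.map (algebraMap K L)).eval t * w) ^ 2 := by
      have hw' : w ^ 2 = aeval t g' := hw
      rw [h1, Polynomial.map_mul, Polynomial.map_pow, eval_mul, eval_pow, mul_pow, hw',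
        aeval_def, eval₂_eq_eval_map]
    refine ⟨(r.map (algebraMap K L)).eval t * w, ?_, e.symm⟩
    intro h
    rw [h, zero_pow two_ne_zero] at e
    exact h0 e

variable {k m : ℕ} {a : Fin (k + 1) → Fin (m + 1)}

/-- The points of a curve over a number field, for every field `E` over the extension `L`. -/
theorem c3_Gam {K : Type} [Field K] [NumberField K] (c : Ix a → K)
    (P : Fin (k + 1) → I m → K[X]) (h g : K[X]) (hb : bd (fun e => C (c e)) P = h ^ 2 * g)
    (hd : g.natDegree ≤ 4) (hn : ∀ (e : K) (r : K[X]), g ≠ C e * r ^ 2) :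
    ∃ (L : Type) (_ : Field L) (_ : NumberField L) (_ : Algebra K L),
      ∀ (E : Type) [Field E] (ψ : L →+* E) (S U : E),
        U ^ 2 = g.eval₂ (ψ.comp (algebraMap K L)) S →
        Gam (fun e => ψ (algebraMap K L (c e)))
          (fun l i => (P l i).eval₂ (ψ.comp (algebraMap K L)) S)
          ((Mx (fun e => ψ (algebraMap K L (c e)))
            (fun l i => (P l i).eval₂ (ψ.comp (algebraMap K L)) S)).det *
              h.eval₂ (ψ.comp (algebraMap K L)) S * U) ∈
          Helper24.HK.Zc (ψ.fieldRange : Set E) fun e => ψ (algebraMap K L (c e)) := by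
  obtain ⟨L, iL, nL, aL, hinf⟩ := exists_inf g hn hd
  refine ⟨L, iL, nL, aL, ?_⟩
  intro E iE ψ S U hU
  have hcE : CharZero E := charZero_of_injective_ringHom ψ.injective
  set φ : K →+* E := ψ.comp (algebraMap K L) with hφ
  have hev : ∀ (f : K[X]) (t : E), (f.map φ).eval t = f.eval₂ φ t := fun f t =>
    (eval₂_eq_eval_map φ).symm
  have hK : (ψ.fieldRange : Set E).Infinite :=
    Set.infinite_of_injective_forall_mem (f := fun n : ℕ => (n : E)) Nat.cast_injective
      fun n => natCast_mem ψ.fieldRange n
  have hmem : ∀ (f : K[X]), ∀ t ∈ ψ.fieldRange, (f.map φ).eval t ∈ ψ.fieldRange := by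
    rintro f t ⟨t, rfl⟩
    refine ⟨(f.map (algebraMap K L)).eval t, ?_⟩
    rw [← Polynomial.eval_map_apply, Polynomial.map_map]
  have key := zc_Gam (K := ψ.fieldRange) (c := fun e => ψ (algebraMap K L (c e)))
    (two_ne_zero (α := E)) (fun e => ⟨algebraMap K L (c e), rfl⟩)
    (fun l i => (P l i).map φ) (fun t ht l i => hmem _ t ht)
    ((Mx (fun e => C (c e)) P).det.map φ * h.map φ) (g.map φ) (fun t ht => by
      rw [eval_mul]
      exact ψ.fieldRange.mul_mem (hmem _ t ht) (hmem _ t ht)) (fun t => by
      have e1 := sq_sub (fun e => ψ (algebraMap K L (c e))) (fun l i => ((P l i).map φ).eval t)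
      have e2 : bd (fun e => ψ (algebraMap K L (c e))) (fun l i => ((P l i).map φ).eval t) =
          ((h.map φ).eval t) ^ 2 * (g.map φ).eval t := by
        have h3 := map_bd (fun e => C (c e)) ((evalRingHom t).comp (mapRingHom φ)) P
        rw [hb] at h3
        simp only [map_mul, map_pow, RingHom.comp_apply, coe_mapRingHom, coe_evalRingHom,
          Polynomial.map_C, eval_C] at h3
        exact h3.symm
      have e3 : (Mx (fun e => ψ (algebraMap K L (c e)))
          (fun l i => ((P l i).map φ).eval t)).det =
          (((Mx (fun e => C (c e)) P).det).map φ).eval t := by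
        have h3 := map_det_Mx (fun e => C (c e)) ((evalRingHom t).comp (mapRingHom φ)) P
        simp only [RingHom.comp_apply, coe_mapRingHom, coe_evalRingHom,
          Polynomial.map_C, eval_C] at h3
        exact h3.symm
      rw [e1, e2, e3, eval_mul]
      ring) ?_ S U (by rw [hev]; exact hU)
  · have e4 : (((Mx (fun e => C (c e)) P).det).map φ).eval S =
        (Mx (fun e => ψ (algebraMap K L (c e))) (fun l i => (P l i).eval₂ φ S)).det := by
      have h3 := map_det_Mx (fun e => C (c e)) ((evalRingHom S).comp (mapRingHom φ)) P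
      simp only [RingHom.comp_apply, coe_mapRingHom, coe_evalRingHom,
        Polynomial.map_C, eval_C, hev] at h3
      rw [hev]
      exact h3
    simp only [hev] at key ⊢
    rw [eval_mul, e4, hev] at key
    exact key
  · refine ((hinf.image ψ.injective.injOn)).mono ?_
    rintro _ ⟨t, ⟨w, hw0, hw⟩, rfl⟩
    refine ⟨⟨t, rfl⟩, ψ w, ⟨w, rfl⟩, fun h => hw0 (ψ.injective (by rw [h, map_zero])), ?_⟩
    rw [← map_pow, hw, ← Polynomial.eval_map_apply, Polynomial.map_map]

/-- The two forms of the closure. -/
theorem zc_iff {K L : Type*} [Field K] [Field L] [Algebra K L] (c : Ix a → K)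
    (P : Fin (k + 1) → I m → L) :
    P ∈ Helper24.HK.Zc ((algebraMap K L).fieldRange : Set L) (fun e => algebraMap K L (c e)) ↔
      Helper37.HK.Zc c P := by
  have hcone : ∀ Q : Fin (k + 1) → I m → L,
      Q ∈ Cone ((algebraMap K L).fieldRange : Set L) (fun e => algebraMap K L (c e)) ↔
        ∃ Q' : Fin (k + 1) → I m → K, OnX c Q' ∧ Q = fun l i => algebraMap K L (Q' l i) := by
    intro Q
    constructor
    · rintro ⟨h1, h2⟩
      choose Q' hQ' using h1
      refine ⟨Q', fun i => ?_, funext fun l => funext fun i => (hQ' l i).symm⟩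
      have h3 := map_Ef c (algebraMap K L) i Q'
      have h4 : (fun l i => algebraMap K L (Q' l i)) = Q := funext fun l => funext fun i => hQ' l i
      rw [h4, h2 i] at h3
      exact (algebraMap K L).injective (by rw [h3, map_zero])
    · rintro ⟨Q', h1, rfl⟩
      refine ⟨fun l i => ⟨Q' l i, rfl⟩, fun i => ?_⟩
      rw [← map_Ef c (algebraMap K L), h1 i, map_zero]
  constructor
  · intro h F hF
    exact h F fun Q hQ => by
      obtain ⟨Q', h1, rfl⟩ := (hcone Q).1 hQ
      exact hF Q' h1
  · intro h F hF
    exact h F fun Q hQ => hF _ ((hcone _).2 ⟨Q, hQ, rfl⟩)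

/-- The points of a curve over a number field, for every field `E` over the extension `L`. -/
theorem c3 {K : Type} [Field K] [NumberField K] (c : Ix a → K)
    (P : Fin (k + 1) → I m → K[X]) (h g : K[X]) (hb : bd (fun e => C (c e)) P = h ^ 2 * g)
    (hd : g.natDegree ≤ 4) (hn : ∀ (e : K) (r : K[X]), g ≠ C e * r ^ 2) :
    ∃ (L : Type) (_ : Field L) (_ : NumberField L) (_ : Algebra K L),
      ∀ (E : Type) [Field E] [Algebra L E] (S U z : E),
        U ^ 2 = g.eval₂ ((algebraMap L E).comp (algebraMap K L)) S →
        Ah (fun e => algebraMap L E (algebraMap K L (c e)))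
          (fun l i => (P l i).eval₂ ((algebraMap L E).comp (algebraMap K L)) S) ≠ 0 →
        Ah (fun e => algebraMap L E (algebraMap K L (c e)))
          (fun l i => (P l i).eval₂ ((algebraMap L E).comp (algebraMap K L)) S) * z +
        Bh (fun e => algebraMap L E (algebraMap K L (c e)))
          (fun l i => (P l i).eval₂ ((algebraMap L E).comp (algebraMap K L)) S) =
          (Mx (fun e => algebraMap L E (algebraMap K L (c e)))
            (fun l i => (P l i).eval₂ ((algebraMap L E).comp (algebraMap K L)) S)).det *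
              h.eval₂ ((algebraMap L E).comp (algebraMap K L)) S * U →
        Helper37.HK.Zc (fun e => algebraMap K L (c e))
          (Xz (fun e => algebraMap L E (algebraMap K L (c e)))
            (fun l i => (P l i).eval₂ ((algebraMap L E).comp (algebraMap K L)) S) z) := by
  obtain ⟨L, iL, nL, aL, hL⟩ := c3_Gam c P h g hb hd hn
  refine ⟨L, iL, nL, aL, ?_⟩
  intro E iE aE S U z hU hA hz
  have h1 := hL E (algebraMap L E) S U hU
  rw [← hz, Gam_eq] at h1
  have hcE : CharZero E := charZero_of_injective_algebraMap (algebraMap L E).injective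
  have hK : ((algebraMap L E).fieldRange : Set E).Infinite :=
    Set.infinite_of_injective_forall_mem (f := fun n : ℕ => (n : E)) Nat.cast_injective
      fun n => natCast_mem (algebraMap L E).fieldRange n
  have h4 := (cl_zc hK (c := fun e => algebraMap L E (algebraMap K L (c e)))
    (fun e => ⟨_, rfl⟩)).hsc (Function.update 1 0 (Ah (fun e => algebraMap L E (algebraMap K L (c e)))
      (fun l i => (P l i).eval₂ ((algebraMap L E).comp (algebraMap K L)) S))⁻¹) _ h1
  rw [Helper37.HK.sc_single, Function.update_self, Function.update_idem] at h4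
  rw [← zc_iff]
  unfold Xz
  convert h4 using 2
  funext i
  rw [← mul_assoc, inv_mul_cancel₀ hA, one_mul]

end Pool.Agent.Helper64.HK
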