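import Pool.Agent.Helper64.HK.BdM
import Pool.Agent.Helper64.HK.Line

/-!
# `k + 1` factors: the branch form of the double cover
-/

set_option autoImplicit false

namespace Pool.Agent.Helper64.HK

open Pool.Agent.Helper28.HN (I aff)
open Function Finset

/-- The numbering of the coordinates. -/
def ee (m : ℕ) : Fin 2 ⊕ Fin m → I m := Sum.elim ![0, 1] fun b => b.succ.succ

theorem sum_ee {m : ℕ} {S : Type*} [AddCommMonoid S] (f : I m → S) :
    ∑ i, f (ee m i) = ∑ l, f l := by
  rw [Fintype.sum_sum_type, Fin.sum_univ_two, Fin.sum_univ_succ, Fin.sum_univ_succ, ← add_assoc]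
  rfl

section ring

variable {k m : ℕ} {a : Fin (k + 1) → Fin (m + 1)} {S S' : Type*} [CommRing S] [CommRing S']
  (c : Ix a → S)

/-- The quadratic form on the factor `0`. -/
def Qm (X : Fin (k + 1) → I m → S) : Matrix (Fin 2 ⊕ Fin m) (Fin 2 ⊕ Fin m) S :=
  fun i j => Pf c 0 X (Pi.single (ee m i) 1) (Pi.single (ee m j) 1)

/-- The first two columns of the linear forms. -/
def R0m (X : Fin (k + 1) → I m → S) : Matrix (Fin m) (Fin 2) S :=
  fun r s => rf c 0 X r (Pi.single (ee m (.inl s)) 1)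

/-- The branch form of the double cover (of degree `2 (m + 2)` in every factor). -/
def bd (X : Fin (k + 1) → I m → S) : S := - (bor (Qm c X) (R0m c X) (Mx c X)).det

/-- `Pf` as a linear map in the first argument. -/
def pfl (j : Fin (k + 1)) (X : Fin (k + 1) → I m → S) (w : I m → S) : (I m → S) →ₗ[S] S where
  toFun v := Pf c j X v w
  map_add' v v' := by
    have := Pf_comb_l c j X 1 1 v v' w
    simp only [one_mul] at this
    exact this
  map_smul' α v := Pf_smul_l c j X α v w

theorem Pf_eq_sum_l (j : Fin (k + 1)) (X : Fin (k + 1) → I m → S) (v w : I m → S) :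
    Pf c j X v w = ∑ l, v l * Pf c j X (Pi.single l 1) w := by
  have h : Pf c j X v w = pfl c j X w v := rfl
  rw [h, LinearMap.pi_apply_eq_sum_univ]
  refine sum_congr rfl fun l _ => ?_
  have h2 : (fun i => if l = i then (1 : S) else 0) = Pi.single l 1 := by
    funext i
    by_cases h : l = i
    · subst h; simp
    · rw [if_neg h, Pi.single_eq_of_ne (Ne.symm h)]
  rw [h2, smul_eq_mul]
  rfl

theorem Pf_eq_sum (j : Fin (k + 1)) (X : Fin (k + 1) → I m → S) (v w : I m → S) :
    Pf c j X v w = ∑ l, ∑ l', v l * Pf c j X (Pi.single l 1) (Pi.single l' 1) * w l' := by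
  rw [Pf_eq_sum_l]
  refine sum_congr rfl fun l _ => ?_
  rw [Pf_symm, Pf_eq_sum_l, mul_sum]
  refine sum_congr rfl fun l' _ => ?_
  rw [Pf_symm c j X (Pi.single l' 1)]
  ring

theorem kk_zero (X : Fin (k + 1) → I m → S) (i : Fin 2 ⊕ Fin m) :
    kk (R0m c X) (Mx c X) i 0 = Y0 c X (ee m i) := by
  rcases i with i | i
  · fin_cases i
    · simp [kk, ee]
    · simp [kk, ee]
  · simp only [kk, Matrix.fromRows_apply_inr, Matrix.neg_apply, ee, Sum.elim_inr]
    exact (congrFun (Y0_succ c X) i).symm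

theorem kk_one (X : Fin (k + 1) → I m → S) (i : Fin 2 ⊕ Fin m) :
    kk (R0m c X) (Mx c X) i 1 = Y1 c X (ee m i) := by
  rcases i with i | i
  · fin_cases i
    · simp [kk, ee]
    · simp [kk, ee]
  · simp only [kk, Matrix.fromRows_apply_inr, Matrix.neg_apply, ee, Sum.elim_inr]
    exact (congrFun (Y1_succ c X) i).symm

theorem quad_eq (X : Fin (k + 1) → I m → S) (v w : I m → S) (v' w' : Fin 2 ⊕ Fin m → S)
    (hv : ∀ i, v' i = v (ee m i)) (hw : ∀ i, w' i = w (ee m i)) :
    ∑ j, (∑ i, v' i * Qm c X i j) * w' j = Pf c 0 X v w := by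
  rw [Pf_eq_sum, ← sum_ee fun l => ∑ l', v l * Pf c 0 X (Pi.single l 1) (Pi.single l' 1) * w l']
  simp only [← sum_ee fun l' => v (ee m _) * Pf c 0 X (Pi.single (ee m _) 1) (Pi.single l' 1) *
    w l']
  rw [sum_comm]
  refine sum_congr rfl fun j _ => ?_
  rw [sum_mul]
  refine sum_congr rfl fun i _ => ?_
  rw [hv, hw]
  rfl

/-- The discriminant of the quadratic form on the line in the factor `0`. -/
theorem sq_sub (X : Fin (k + 1) → I m → S) :
    Bh c X ^ 2 - Ah c X * Ch c X = (Mx c X).det ^ 2 * bd c X := by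
  have h := kk_det (Qm c X) (R0m c X) (Mx c X)
  have e : ∀ s t : Fin 2, ((kk (R0m c X) (Mx c X)).transpose * Qm c X *
      kk (R0m c X) (Mx c X)) s t = ∑ j, (∑ i, kk (R0m c X) (Mx c X) i s * Qm c X i j) *
        kk (R0m c X) (Mx c X) j t := fun s t => rfl
  rw [Matrix.det_fin_two, e, e, e, e,
    quad_eq c X (Y0 c X) (Y0 c X) (fun i => kk (R0m c X) (Mx c X) i 0)
      (fun i => kk (R0m c X) (Mx c X) i 0) (kk_zero c X) (kk_zero c X),
    quad_eq c X (Y1 c X) (Y1 c X) (fun i => kk (R0m c X) (Mx c X) i 1)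
      (fun i => kk (R0m c X) (Mx c X) i 1) (kk_one c X) (kk_one c X),
    quad_eq c X (Y0 c X) (Y1 c X) (fun i => kk (R0m c X) (Mx c X) i 0)
      (fun i => kk (R0m c X) (Mx c X) i 1) (kk_zero c X) (kk_one c X),
    quad_eq c X (Y1 c X) (Y0 c X) (fun i => kk (R0m c X) (Mx c X) i 1)
      (fun i => kk (R0m c X) (Mx c X) i 0) (kk_one c X) (kk_zero c X),
    Pf_symm c 0 X (Y1 c X) (Y0 c X)] at h
  change Ch c X * Ah c X - Bh c X * Bh c X = _ at h
  unfold bd
  linear_combination -h

theorem bd_upd (X : Fin (k + 1) → I m → S) (w : I m → S) : bd c (update X 0 w) = bd c X := by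
  have h1 : Qm c (update X 0 w) = Qm c X := by
    ext i j
    exact Pf_upd c 0 X w _ _
  have h2 : R0m c (update X 0 w) = R0m c X := by
    ext i j
    exact rf_upd c 0 X w _ _
  unfold bd
  rw [h1, h2, Mx_upd]

theorem map_bd (f : S →+* S') (X : Fin (k + 1) → I m → S) :
    f (bd c X) = bd (fun e => f (c e)) (fun l i => f (X l i)) := by
  unfold bd
  rw [map_neg, RingHom.map_det, map_bor]
  have h1 : (Qm c X).map f = Qm (fun e => f (c e)) (fun l i => f (X l i)) := by
    ext i j
    unfold Qm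
    rw [Matrix.map_apply, map_Pf, map_single, map_single, map_one]
  have h2 : (R0m c X).map f = R0m (fun e => f (c e)) (fun l i => f (X l i)) := by
    ext i j
    unfold R0m
    rw [Matrix.map_apply, map_rf, map_single, map_one]
  have h3 : (Mx c X).map f = Mx (fun e => f (c e)) (fun l i => f (X l i)) := by
    have := map_Mx c f X
    simpa using this
  rw [h1, h2, h3]

end ring

end Pool.Agent.Helper64.HK
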