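import Mathlib

/-!
# The bordered determinant: matrices
-/

set_option autoImplicit false

namespace Pool.Agent.Helper64.HK

open Matrix

section block

variable {m : ℕ} {S : Type*} [CommRing S]

/-- The matrix which exchanges the last two blocks. -/
theorem det_swap_block : (fromBlocks (fromBlocks (1 : Matrix (Fin 2) (Fin 2) S) 0 0 0)
    (fromRows (0 : Matrix (Fin 2) (Fin m) S) (1 : Matrix (Fin m) (Fin m) S))
    (fromCols (0 : Matrix (Fin m) (Fin 2) S) (-1 : Matrix (Fin m) (Fin m) S)) 0).det = 1 := by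
  let E1 : Matrix ((Fin 2 ⊕ Fin m) ⊕ Fin m) ((Fin 2 ⊕ Fin m) ⊕ Fin m) S :=
    fromBlocks 1 (fromRows 0 1) 0 1
  let E2 : Matrix ((Fin 2 ⊕ Fin m) ⊕ Fin m) ((Fin 2 ⊕ Fin m) ⊕ Fin m) S :=
    fromBlocks 1 0 (fromCols 0 (-1)) 1
  have h1 : E1.det = 1 := by
    simp only [E1, det_fromBlocks_zero₂₁, det_one, mul_one]
  have h2 : E2.det = 1 := by
    simp only [E2, det_fromBlocks_zero₁₂, det_one, mul_one]
  have h3 : E1 * E2 * E1 = (fromBlocks (fromBlocks (1 : Matrix (Fin 2) (Fin 2) S) 0 0 0)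
      (fromRows (0 : Matrix (Fin 2) (Fin m) S) (1 : Matrix (Fin m) (Fin m) S))
      (fromCols (0 : Matrix (Fin m) (Fin 2) S) (-1 : Matrix (Fin m) (Fin m) S)) 0) := by
    simp only [E1, E2, fromBlocks_multiply]
    ext (i | i) (j | j)
    · rcases i with i | i <;> rcases j with j | j <;>
        simp [fromRows_mul_fromCols, Matrix.one_apply]
    · rcases i with i | i <;>
        simp [fromRows_mul_fromCols, Matrix.mul_fromCols, Matrix.fromCols_mul_fromRows,
          Matrix.add_mul]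
    · rcases j with j | j <;> simp
    · simp [Matrix.fromCols_mul_fromRows]
  rw [← h3, det_mul, det_mul, h1, h2, one_mul, one_mul]

/-- The determinant of a matrix with three blocks. -/
theorem det_three (G : Matrix (Fin 2) (Fin 2) S) (V : Matrix (Fin 2) (Fin m) S)
    (V' : Matrix (Fin m) (Fin 2) S) (Q : Matrix (Fin m) (Fin m) S)
    (M : Matrix (Fin m) (Fin m) S) :
    (fromBlocks (fromBlocks G V V' Q) (fromRows (0 : Matrix (Fin 2) (Fin m) S) (-Mᵀ))
      (fromCols (0 : Matrix (Fin m) (Fin 2) S) M) 0).det = G.det * M.det ^ 2 := by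
  have h := congrArg det (show (fromBlocks (fromBlocks G V V' Q)
      (fromRows (0 : Matrix (Fin 2) (Fin m) S) (-Mᵀ))
      (fromCols (0 : Matrix (Fin m) (Fin 2) S) M) 0) *
      (fromBlocks (fromBlocks (1 : Matrix (Fin 2) (Fin 2) S) 0 0 0)
        (fromRows (0 : Matrix (Fin 2) (Fin m) S) (1 : Matrix (Fin m) (Fin m) S))
        (fromCols (0 : Matrix (Fin m) (Fin 2) S) (-1 : Matrix (Fin m) (Fin m) S)) 0) =
      fromBlocks (fromBlocks G 0 V' Mᵀ) (fromRows V Q) 0 M by
    rw [fromBlocks_multiply]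
    ext (i | i) (j | j)
    · rcases i with i | i <;> rcases j with j | j <;>
        simp [fromRows_mul_fromCols, fromBlocks_multiply]
    · rcases i with i | i <;> simp [fromBlocks_mul_fromRows]
    · rcases j with j | j <;> simp [fromCols_mul_fromBlocks]
    · simp [Matrix.fromCols_mul_fromRows])
  rw [det_mul, det_swap_block, mul_one, det_fromBlocks_zero₂₁, det_fromBlocks_zero₁₂,
    det_transpose] at h
  rw [h]
  ring

/-- The bordered matrix. -/
def bor (Q : Matrix (Fin 2 ⊕ Fin m) (Fin 2 ⊕ Fin m) S) (R0 : Matrix (Fin m) (Fin 2) S)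
    (M : Matrix (Fin m) (Fin m) S) : Matrix ((Fin 2 ⊕ Fin m) ⊕ Fin m) ((Fin 2 ⊕ Fin m) ⊕ Fin m) S :=
  fromBlocks Q (-(fromCols R0 M)ᵀ) (fromCols R0 M) 0

/-- The first two columns of the change of basis. -/
def kk (R0 : Matrix (Fin m) (Fin 2) S) (M : Matrix (Fin m) (Fin m) S) :
    Matrix (Fin 2 ⊕ Fin m) (Fin 2) S :=
  fromRows (M.det • 1) (-(M.adjugate * R0))

theorem bor_mul (Q : Matrix (Fin 2 ⊕ Fin m) (Fin 2 ⊕ Fin m) S) (R0 : Matrix (Fin m) (Fin 2) S)
    (M : Matrix (Fin m) (Fin m) S) :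
    M.det ^ 2 * (M.det ^ 2 * (bor Q R0 M).det) =
      M.det ^ 2 * ((kk R0 M)ᵀ * Q * kk R0 M).det := by
  let K2 : Matrix (Fin 2 ⊕ Fin m) (Fin m) S := fromRows 0 1
  let K : Matrix (Fin 2 ⊕ Fin m) (Fin 2 ⊕ Fin m) S := fromCols (kk R0 M) K2
  have hK : K = fromBlocks (M.det • 1) 0 (-(M.adjugate * R0)) 1 := by
    ext (i | i) (j | j) <;> simp [K, K2, kk]
  have hdK : K.det = M.det ^ 2 := by
    rw [hK, det_fromBlocks_zero₁₂, det_smul, det_one, det_one, mul_one, mul_one]
    simp
  let KK : Matrix ((Fin 2 ⊕ Fin m) ⊕ Fin m) ((Fin 2 ⊕ Fin m) ⊕ Fin m) S := fromBlocks K 0 0 1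
  have hdKK : KK.det = M.det ^ 2 := by
    simp only [KK, det_fromBlocks_zero₁₂, hdK, det_one, mul_one]
  have hR : fromCols R0 M * K = fromCols 0 M := by
    rw [hK, fromCols_mul_fromBlocks]
    have h1 : M * (M.adjugate * R0) = M.det • R0 := by
      rw [← Matrix.mul_assoc, mul_adjugate, smul_mul, Matrix.one_mul]
    congr 1
    · rw [Matrix.mul_neg, h1, Matrix.mul_smul, Matrix.mul_one, add_neg_cancel]
    · rw [Matrix.mul_zero, Matrix.mul_one, zero_add]
  have hprod : KKᵀ * bor Q R0 M * KK = fromBlocks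
      (fromBlocks ((kk R0 M)ᵀ * Q * kk R0 M) ((kk R0 M)ᵀ * Q * K2) (K2ᵀ * Q * kk R0 M)
        (K2ᵀ * Q * K2)) (fromRows (0 : Matrix (Fin 2) (Fin m) S) (-Mᵀ))
      (fromCols (0 : Matrix (Fin m) (Fin 2) S) M) 0 := by
    simp only [KK, bor, fromBlocks_transpose, fromBlocks_multiply]
    simp only [Matrix.mul_zero, Matrix.zero_mul, add_zero, zero_add, Matrix.one_mul,
      Matrix.mul_one, Matrix.transpose_zero, Matrix.transpose_one, hR]
    congr 1
    · rw [show Kᵀ = fromRows (kk R0 M)ᵀ K2ᵀ from transpose_fromCols _ _, fromRows_mul,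
        show K = fromCols (kk R0 M) K2 from rfl, fromRows_mul_fromCols]
    · rw [Matrix.mul_neg, ← transpose_mul, hR, transpose_fromCols, transpose_zero]
      ext (i | i) j <;> simp
  have h := congrArg det hprod
  rw [det_mul, det_mul, det_transpose, hdKK, det_three] at h
  linear_combination h

theorem map_bor {S' : Type*} [CommRing S'] (f : S →+* S')
    (Q : Matrix (Fin 2 ⊕ Fin m) (Fin 2 ⊕ Fin m) S) (R0 : Matrix (Fin m) (Fin 2) S)
    (M : Matrix (Fin m) (Fin m) S) :
    f.mapMatrix (bor Q R0 M) = bor (Q.map f) (R0.map f) (M.map f) := by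
  ext (i | i) (j | j)
  · rfl
  · rcases i with i | i <;> simp [bor]
  · rcases j with j | j <;> simp [bor]
  · simp [bor]

theorem map_kk {S' : Type*} [CommRing S'] (f : S →+* S') (R0 : Matrix (Fin m) (Fin 2) S)
    (M : Matrix (Fin m) (Fin m) S) : (kk R0 M).map f = kk (R0.map f) (M.map f) := by
  have h1 : (M.adjugate).map f = (M.map f).adjugate := by
    have := RingHom.map_adjugate f M
    simpa using this
  have h2 : f M.det = (M.map f).det := by
    have := RingHom.map_det f M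
    simpa using this
  ext (i | i) j
  · simp [kk, Matrix.one_apply, h2, apply_ite f]
  · simp only [kk, Matrix.map_apply, fromRows_apply_inr, Matrix.neg_apply, map_neg]
    rw [← h1, ← Matrix.map_mul]
    rfl

/-- The quadratic form on the kernel of the rows and the bordered determinant. -/
theorem kk_det (Q : Matrix (Fin 2 ⊕ Fin m) (Fin 2 ⊕ Fin m) S) (R0 : Matrix (Fin m) (Fin 2) S)
    (M : Matrix (Fin m) (Fin m) S) :
    ((kk R0 M)ᵀ * Q * kk R0 M).det = M.det ^ 2 * (bor Q R0 M).det := by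
  classical
  -- deform `M` to `M + λ`
  let f : S →+* Polynomial S := Polynomial.C
  let ev : Polynomial S →+* S := Polynomial.evalRingHom 0
  let M' : Matrix (Fin m) (Fin m) (Polynomial S) := Matrix.charmatrix (-M)
  have hmon : M'.det.Monic := Matrix.charpoly_monic (-M)
  have hreg : IsRegular (M'.det ^ 2) := (hmon.pow 2).isRegular
  have h := bor_mul (Q.map f) (R0.map f) M'
  have h2 := hreg.left h
  have h3 := congrArg ev h2
  have hM : M'.map ev = M := by
    ext i j
    by_cases hij : i = j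
    · subst hij
      simp [M', ev, Matrix.charmatrix_apply]
    · simp [M', ev, Matrix.charmatrix_apply, hij]
  have hQ : (Q.map f).map ev = Q := by
    ext i j
    simp [f, ev]
  have hR0 : (R0.map f).map ev = R0 := by
    ext i j
    simp [f, ev]
  rw [map_mul, map_pow, RingHom.map_det, RingHom.map_det, map_bor, RingHom.map_det,
    RingHom.mapMatrix_apply, hM, hQ, hR0] at h3
  rw [h3]
  have h4 : ev.mapMatrix ((kk (R0.map f) M')ᵀ * Q.map f * kk (R0.map f) M') =
      (kk R0 M)ᵀ * Q * kk R0 M := by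
    rw [RingHom.mapMatrix_apply, Matrix.map_mul, Matrix.map_mul, hQ, Matrix.transpose_map, map_kk,
      hR0, hM]
  rw [h4]

end block

end Pool.Agent.Helper64.HK
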