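import Pool.Agent.Helper64.HK.MmF
import Pool.Agent.Helper24.HK.Cfg
import Pool.Agent.Helper37.HK.Zp
import Pool.Agent.Helper24.HM.Start

/-!
# `k + 1` factors: the points of the closure and the local data
-/

set_option autoImplicit false

namespace Pool.Agent.Helper64.HK

open Pool.Agent.Helper28.HN (I aff)
open Pool.Agent.Helper37.HK (sc)
open Pool.Agent.Helper24.HK Pool.Agent.Helper24.HM
open Function Finset

section field

variable {k m : ℕ} {a : Fin (k + 1) → Fin (m + 1)} {E : Type*} [Field E] {K : Subfield E}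
  {c : Ix a → E}

/-- The closure is closed under the involutions and the scaling. -/
theorem cl_zc (hK : (K : Set E).Infinite) (hc : ∀ e, c e ∈ K) :
    Cl c (fun P => P ∈ Helper24.HK.Zc (K : Set E) c) where
  hon := fun _ h => Helper37.HK.P.z_on K c h
  hsg := fun j _ h => Helper37.HK.P.z_sg K c hc h j
  hsc := fun lam _ h => Helper37.HK.P.z_scale K c hK h lam

theorem mem_Xz (hc : ∀ e, c e ∈ K) {X : Fin (k + 1) → I m → E} (hX : ∀ l i, X l i ∈ K) {z : E}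
    (hz : z ∈ K) (l : Fin (k + 1)) (i : I m) : Xz c X z l i ∈ K := by
  have h := congrFun (congrFun (map_Xz (fun e => (⟨c e, hc e⟩ : K)) K.subtype
    (fun l i => (⟨X l i, hX l i⟩ : K)) ⟨z, hz⟩) l) i
  have h2 : Xz c X z l i = _ := h.symm
  rw [h2]
  exact (Xz (fun e => (⟨c e, hc e⟩ : K)) (fun l i => (⟨X l i, hX l i⟩ : K)) ⟨z, hz⟩ l i).2

theorem mem_xh (hc : ∀ e, c e ∈ K) {X : Fin (k + 1) → I m → E} (hX : ∀ l i, X l i ∈ K)
    (j : Fin (k + 1)) (i : I m) : xh c j X i ∈ K := by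
  have h := congrFun (map_xh (fun e => (⟨c e, hc e⟩ : K)) K.subtype j
    (fun l i => (⟨X l i, hX l i⟩ : K))) i
  have h2 : xh c j X i = _ := h.symm
  rw [h2]
  exact (xh (fun e => (⟨c e, hc e⟩ : K)) j (fun l i => (⟨X l i, hX l i⟩ : K)) i).2

theorem mem_ct {u : Fin k × Fin (m + 1) → E} (hu : ∀ q, u q ∈ K) (l : Fin (k + 1)) (i : I m) :
    (ct u : Fin (k + 1) → I m → E) l i ∈ K := by
  have h := congrFun (congrFun (map_ct K.subtype (fun q => (⟨u q, hu q⟩ : K))) l) i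
  have h2 : (ct u : Fin (k + 1) → I m → E) l i = _ := h.symm
  rw [h2]
  exact ((ct fun q => (⟨u q, hu q⟩ : K)) l i).2

end field

variable {p : ℕ} [Fact p.Prime] {k m : ℕ} {a : Fin (k + 1) → Fin (m + 1)} {c : Ix a → ℤ_[p]}
  {s : Sel k m} {x : Un k m → ℤ_[p]}

/-- The inclusion. -/
noncomputable abbrev cj : ℤ_[p] →+* ℚ_[p] := PadicInt.Coe.ringHom

theorem cj_inj : Injective (cj (p := p)) := Subtype.val_injective

/-- The coefficients. -/
def cc (c : Ix a → ℤ_[p]) : Ix a → ℚ_[p] := fun e => (c e : ℚ_[p])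

/-- The coordinates. -/
def uq (y : Fin (k * (m + 1)) → ℤ_[p]) : Fin k × Fin (m + 1) → ℚ_[p] :=
  fun q => ((tr y q : ℤ_[p]) : ℚ_[p])

theorem cj_ct (y : Fin (k * (m + 1)) → ℤ_[p]) :
    (fun l i => cj ((ct (tr y) : Fin (k + 1) → I m → ℤ_[p]) l i)) = ct (uq y) := map_ct cj (tr y)

theorem cq_Xz (c : Ix a → ℤ_[p]) (y : Fin (k * (m + 1)) → ℤ_[p]) (z : ℤ_[p]) :
    cq (Xz c (ct (tr y)) z) = Xz (cc c) (ct (uq y)) (z : ℚ_[p]) := by
  have h := map_Xz c cj (ct (tr y)) z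
  rw [cj_ct] at h
  exact h

theorem cj_det (c : Ix a → ℤ_[p]) (y : Fin (k * (m + 1)) → ℤ_[p]) :
    (Mx (cc c) (ct (uq y))).det = cj (Mx c (ct (tr y))).det := by
  rw [map_det_Mx, cj_ct]
  rfl

theorem cj_Ah (c : Ix a → ℤ_[p]) (y : Fin (k * (m + 1)) → ℤ_[p]) :
    Ah (cc c) (ct (uq y)) = cj (Ah c (ct (tr y))) := by
  rw [map_Ah, cj_ct]
  rfl

theorem cj_Bh (c : Ix a → ℤ_[p]) (y : Fin (k * (m + 1)) → ℤ_[p]) :
    Bh (cc c) (ct (uq y)) = cj (Bh c (ct (tr y))) := by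
  rw [map_Bh, cj_ct]
  rfl

theorem cj_Fh (c : Ix a → ℤ_[p]) (y : Fin (k * (m + 1)) → ℤ_[p]) (z : ℤ_[p]) :
    Fh (cc c) (ct (uq y)) (z : ℚ_[p]) = cj (Fh c (ct (tr y)) z) := by
  rw [map_Fh, cj_ct]
  rfl

theorem cj_psh (c : Ix a → ℤ_[p]) (j : Fin (k + 1)) (y : Fin (k * (m + 1)) → ℤ_[p]) (z : ℤ_[p]) :
    psh (cc c) j (ct (uq y)) (z : ℚ_[p]) = cj (psh c j (ct (tr y)) z) := by
  rw [map_psh, cj_ct]
  rfl

theorem cj_kah (c : Ix a → ℤ_[p]) (j : Fin (k + 1)) (y : Fin (k * (m + 1)) → ℤ_[p]) (z : ℤ_[p]) :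
    kah (cc c) j (ct (uq y)) (z : ℚ_[p]) = cj (kah c j (ct (tr y)) z) := by
  rw [map_kah, cj_ct]
  rfl

theorem cj_vh (c : Ix a → ℤ_[p]) (j : Fin (k + 1)) (y : Fin (k * (m + 1)) → ℤ_[p]) (z : ℤ_[p])
    (i : Fin (m + 1)) : vh (cc c) j (Xz (cc c) (ct (uq y)) (z : ℚ_[p])) i =
      cj (vh c j (Xz c (ct (tr y)) z) i) := by
  have h := congrFun (map_vh c cj j (Xz c (ct (tr y)) z)) i
  rw [map_Xz, cj_ct] at h
  exact h.symm

theorem tr_em (l : Fin k) (v : Fin (m + 1) → ℤ_[p]) (q : Fin k × Fin (m + 1)) :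
    tr (Helper24.HK.em l v) q = if q.1 = l then v q.2 else 0 := by
  unfold tr Helper24.HK.em
  rw [Equiv.symm_apply_apply]

theorem uq_sub (y : Fin (k * (m + 1)) → ℤ_[p]) (t : ℤ_[p]) (l : Fin k) (v : Fin (m + 1) → ℤ_[p]) :
    uq (y - t • Helper24.HK.em l v) = sh l (uq y) (t : ℚ_[p]) fun i => cj (v i) := by
  funext q
  have h : tr (y - t • Helper24.HK.em l v) q = tr y q - t * if q.1 = l then v q.2 else 0 := by
    rw [← tr_em]
    rfl
  unfold uq sh
  rw [h]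
  split_ifs
  · exact (map_sub cj _ _).trans (by rw [map_mul]; rfl)
  · simp

theorem uq_add (y : Fin (k * (m + 1)) → ℤ_[p]) (t : ℤ_[p]) (l : Fin k) (v : Fin (m + 1) → ℤ_[p]) :
    uq (y + t • Helper24.HK.em l v) = fun q => uq y q + (t : ℚ_[p]) * if q.1 = l then cj (v q.2) else 0 := by
  funext q
  have h : tr (y + t • Helper24.HK.em l v) q = tr y q + t * if q.1 = l then v q.2 else 0 := by
    rw [← tr_em]
    rfl
  unfold uq
  rw [h]
  split_ifs
  · exact (map_add cj _ _).trans (by rw [map_mul]; rfl)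
  · simp

theorem isUnit_D (h : Cfg c s x) : IsUnit (Mx c (pt x)).det := by
  have := h.hP
  unfold Pp at this
  simp only [IsUnit.mul_iff] at this
  exact this.1.1.1.1.1.1.1

theorem norm_det_sub (c : Ix a → ℤ_[p]) (y y' : Fin (k * (m + 1)) → ℤ_[p]) :
    ‖(Mx c (ct (tr y))).det - (Mx c (ct (tr y'))).det‖ ≤ ‖y - y'‖ := by
  have h1 : ∀ y : Fin (k * (m + 1)) → ℤ_[p], (Mx c (ct (tr y))).det = MvPolynomial.eval y
      (Mx (fun e => MvPolynomial.C (c e)) (ct (tr MvPolynomial.X))).det := by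
    intro y
    rw [map_det_Mx]
    simp only [MvPolynomial.eval_C]
    rw [map_ct]
    simp only [tr, MvPolynomial.eval_X]
    rfl
  rw [h1 y, h1 y']
  exact Helper45.XN.norm_eval_sub_le _ _ _

theorem pt_eq (x : Un k m → ℤ_[p]) : ct (tr (tr' fun q => x (.inl q))) = pt x := by
  unfold pt
  congr 1
  funext q
  unfold tr tr'
  rw [Equiv.symm_apply_apply]

theorem det_ne (h : Cfg c s x) {y : Fin (k * (m + 1)) → ℤ_[p]}
    (hx : ‖y - tr' fun q => x (.inl q)‖ ≤ (p : ℝ) ^ (-2 : ℤ)) : (Mx c (ct (tr y))).det ≠ 0 := by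
  intro h0
  have h1 := norm_det_sub c y (tr' fun q => x (.inl q))
  have h2 : ‖(Mx c (pt x)).det‖ = 1 := PadicInt.isUnit_iff.1 (isUnit_D h)
  rw [h0, pt_eq, zero_sub, norm_neg, h2] at h1
  have h3 : (p : ℝ) ^ (-2 : ℤ) < 1 := by
    have h4 : (1 : ℝ) < p := by exact_mod_cast (Fact.out : p.Prime).one_lt
    exact zpow_lt_one_of_neg₀ h4 (by norm_num)
  linarith

/-- The other root. -/
theorem other_root {A B C : ℤ_[p]} {z w : ℤ_[p]}
    (hv : ∀ v, A * v ^ 2 + B * v + C = A * (v - z) * (v - w)) : A * w = - B - A * z := by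
  have h0 := hv 0
  have h1 := hv 1
  linear_combination h1 - h0

theorem infinite_sub (K : Subfield ℚ_[p]) : (K : Set ℚ_[p]).Infinite :=
  Set.infinite_of_injective_forall_mem (f := fun n : ℕ => (n : ℚ_[p])) Nat.cast_injective
    fun n => natCast_mem K n

/-- The family of points: the closure of the rational points. -/
def Zp (K : Subfield ℚ_[p]) (c : Ix a → ℤ_[p]) (P : Fin (k + 1) → I m → ℚ_[p]) : Prop :=
  P ∈ Helper24.HK.Zc (K : Set ℚ_[p]) (cc c)

theorem cl_zp (K : Subfield ℚ_[p]) (hc : ∀ e, (c e : ℚ_[p]) ∈ K) : Cl (cc c) (Zp K c) :=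
  cl_zc (infinite_sub K) hc

theorem zp_F {K : Subfield ℚ_[p]} (hc : ∀ e, (c e : ℚ_[p]) ∈ K) {y : Fin (k * (m + 1)) → ℤ_[p]}
    {z : ℤ_[p]} (h : Zp K c (cq (Xz c (ct (tr y)) z))) : Fh c (ct (tr y)) z = 0 := by
  have h1 := (cl_zp K hc).hon _ h (a 0)
  rw [cq_Xz] at h1
  have h2 : Fh (cc c) (ct (uq y)) (z : ℚ_[p]) = 0 := by
    have h3 := Pf_self (cc c) 0 (ct (uq y)) (yh (cc c) (ct (uq y)) (z : ℚ_[p]))
    unfold Xz at h1
    rw [h1, mul_zero] at h3
    exact h3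
  rw [cj_Fh] at h2
  exact cj_inj (by rw [h2, map_zero])

theorem zp_mm {K : Subfield ℚ_[p]} {y : Fin (k * (m + 1)) → ℤ_[p]}
    {z : ℤ_[p]} (hD : (Mx c (ct (tr y))).det ≠ 0) (h : Zp K c (cq (Xz c (ct (tr y)) z))) :
    Mm (Zp K c) (uq y) (z : ℚ_[p]) := by
  rw [cq_Xz] at h
  refine mm_of_xz (c := cc c) ?_ h
  rw [cj_det]
  intro h0
  exact hD (cj_inj (by rw [h0, map_zero]))

theorem mm_zp {K : Subfield ℚ_[p]} (hc : ∀ e, (c e : ℚ_[p]) ∈ K) {y : Fin (k * (m + 1)) → ℤ_[p]}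
    {z : ℤ_[p]} (h : Mm (Zp K c) (uq y) (z : ℚ_[p])) : Zp K c (cq (Xz c (ct (tr y)) z)) := by
  rw [cq_Xz]
  exact h.xz (cl_zp K hc)

/-- The involution in the factor `0`. -/
theorem zp_ny {K : Subfield ℚ_[p]} (hc : ∀ e, (c e : ℚ_[p]) ∈ K) {y : Fin (k * (m + 1)) → ℤ_[p]}
    {z w : ℤ_[p]} (h : Mm (Zp K c) (uq y) (z : ℚ_[p])) (hA : Ah c (ct (tr y)) ≠ 0)
    (hw : Ah c (ct (tr y)) * w = - (2 * Bh c (ct (tr y))) - Ah c (ct (tr y)) * z) :
    Mm (Zp K c) (uq y) (w : ℚ_[p]) := by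
  refine h.inv1 (cl_zp K hc) ?_ ?_
  · rw [cj_Ah]
    intro h0
    exact hA (cj_inj (by rw [h0, map_zero]))
  · rw [cj_Ah, cj_Bh]
    have := congrArg cj hw
    simp only [map_mul, map_sub, map_neg, map_ofNat] at this
    exact this

/-- The involution in the factor `l.succ`. -/
theorem zp_nx {K : Subfield ℚ_[p]} (hc : ∀ e, (c e : ℚ_[p]) ∈ K) {y : Fin (k * (m + 1)) → ℤ_[p]}
    {z t : ℤ_[p]} (l : Fin k) (h : Mm (Zp K c) (uq y) (z : ℚ_[p]))
    (hk : kah c l.succ (ct (tr y)) z ≠ 0)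
    (ht : t * kah c l.succ (ct (tr y)) z = 2 * psh c l.succ (ct (tr y)) z) :
    Mm (Zp K c) (uq (y - t • Helper24.HK.em l (vh c l.succ (Xz c (ct (tr y)) z)))) (z : ℚ_[p]) := by
  have h1 := h.inv2 (cl_zp K hc) (t := (t : ℚ_[p])) l (by
    rw [cj_kah]
    intro h0
    exact hk (cj_inj (by rw [h0, map_zero]))) (by
    rw [cj_kah, cj_psh]
    have := congrArg cj ht
    simp only [map_mul, map_ofNat] at this
    exact this)
  rw [uq_sub]
  have h2 : vh (cc c) l.succ (Xz (cc c) (ct (uq y)) (z : ℚ_[p])) =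
      fun i => cj (vh c l.succ (Xz c (ct (tr y)) z) i) := funext fun i => cj_vh c l.succ y z i
  rw [h2] at h1
  exact h1

/-- The line of the start. -/
theorem zp_line {K : Subfield ℚ_[p]} (hc : ∀ e, (c e : ℚ_[p]) ∈ K) (h : Cfg c s x)
    (hx : ∀ i, (x i : ℚ_[p]) ∈ K) (t : ℤ_[p]) :
    Mm (Zp K c) (uq ((tr' fun q => x (.inl q)) +
      t • Helper24.HK.em s.f (vh c s.f.succ (Xz c (pt x) (x (.inr none))))))
        ((x (.inr none) : ℤ_[p]) : ℚ_[p]) := by
  set y : Fin (k * (m + 1)) → ℤ_[p] := tr' fun q => x (.inl q) with hy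
  have hpt : ct (tr y) = pt x := pt_eq x
  have hu : ∀ q, uq y q ∈ K := by
    intro q
    have e : tr y q = x (.inl q) := by
      rw [hy]
      unfold tr tr'
      rw [Equiv.symm_apply_apply]
    unfold uq
    rw [e]
    exact hx _
  have hz := hx (.inr none)
  have hX : ∀ l i, Xz (cc c) (ct (uq y)) ((x (.inr none) : ℤ_[p]) : ℚ_[p]) l i ∈ K :=
    mem_Xz hc (mem_ct hu) hz
  have hF : Fh (cc c) (ct (uq y)) ((x (.inr none) : ℤ_[p]) : ℚ_[p]) = 0 := by
    rw [cj_Fh, hpt, h.F0, map_zero]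
  have hp : psh (cc c) s.f.succ (ct (uq y)) ((x (.inr none) : ℤ_[p]) : ℚ_[p]) = 0 := by
    rw [cj_psh, hpt]
    have := h.psi none
    change psh c s.f.succ (pt x) (x (.inr none)) = 0 at this
    rw [this, map_zero]
  have hk : kah (cc c) s.f.succ (ct (uq y)) ((x (.inr none) : ℤ_[p]) : ℚ_[p]) = 0 := by
    rw [cj_kah, hpt, h.kap, map_zero]
  have h1 := Helper37.HK.P.z_line K (cc c) (infinite_sub K)
    (Xz (cc c) (ct (uq y)) ((x (.inr none) : ℤ_[p]) : ℚ_[p]))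
    (update 0 s.f.succ (xh (cc c) s.f.succ
      (Xz (cc c) (ct (uq y)) ((x (.inr none) : ℤ_[p]) : ℚ_[p])))) hX (fun l i => by
      by_cases hl : l = s.f.succ
      · subst hl
        rw [update_self]
        exact mem_xh hc hX _ _
      · rw [update_of_ne hl]
        exact zero_mem K) (fun t _ => by
      convert onX_line two_ne_zero s.f hF hp hk t using 1
      funext l
      by_cases hl : l = s.f.succ
      · subst hl
        simp only [update_self, Xz_succ]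
      · funext i
        rw [update_of_ne hl, update_of_ne hl]
        simp) (t : ℚ_[p])
  have h2 := mm_line (Z := Zp K c) (c := cc c) (by
    rw [cj_det, hpt]
    intro h0
    exact (isUnit_D h).ne_zero (cj_inj (by rw [h0, map_zero]))) s.f h1
  rw [uq_add]
  have h3 : vh (cc c) s.f.succ (Xz (cc c) (ct (uq y)) ((x (.inr none) : ℤ_[p]) : ℚ_[p])) =
      fun i => cj (vh c s.f.succ (Xz c (pt x) (x (.inr none))) i) := by
    rw [← hpt]
    exact funext fun i => cj_vh c s.f.succ y _ i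
  rw [h3] at h2
  exact h2

theorem unit_q (h : Cfg c s x) : IsUnit (qh c s.f.succ (pt x) (xz c s x none)
    (x (.inr (some s.j)))) := by
  have := h.hP
  unfold Pp at this
  simp only [IsUnit.mul_iff] at this
  have h1 := this.1.2
  rw [Finset.prod_eq_mul_prod_sdiff_singleton_of_mem (Finset.mem_univ (none : Lt k m)),
    IsUnit.mul_iff] at h1
  have h2 := h1.1
  rw [Finset.prod_eq_mul_prod_sdiff_singleton_of_mem (Finset.mem_univ (some s.j : Lt k m)),
    IsUnit.mul_iff] at h2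
  have h3 := h2.1
  rw [if_neg (by simp)] at h3
  exact h3

theorem isUnit_zz (h : Cfg c s x) {b b' : Lt k m} (hb : b ≠ b') :
    IsUnit (x (.inr b) - x (.inr b')) := by
  have := h.hP
  unfold Pp at this
  simp only [IsUnit.mul_iff] at this
  have h1 := this.1.1.1.1.1.1.2
  rw [Finset.prod_eq_mul_prod_sdiff_singleton_of_mem (Finset.mem_univ b),
    IsUnit.mul_iff] at h1
  have h2 := h1.1
  rw [Finset.prod_eq_mul_prod_sdiff_singleton_of_mem (Finset.mem_univ b'),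
    IsUnit.mul_iff] at h2
  have h3 := h2.1
  rwa [if_neg hb] at h3

/-- The values of the form are small. -/
theorem norm_Fh (h : Cfg c s x) (z : ℤ_[p]) : ‖Fh c (pt x) z‖ ≤ (p : ℝ) ^ (-2 : ℤ) := by
  have h0 := h.F0
  rw [Fh_eq] at h0
  have e : Fh c (pt x) z = Ah c (pt x) * (z ^ 2 - x (.inr none) ^ 2) +
      Bh c (pt x) * (2 * (z - x (.inr none))) := by
    rw [Fh_eq]
    linear_combination h0
  rw [e]
  refine (IsUltrametricDist.norm_add_le_max _ _).trans (max_le ?_ ?_)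
  · rw [norm_mul]
    exact (mul_le_mul h.hA (PadicInt.norm_le_one _) (norm_nonneg _) (by positivity)).trans
      (by rw [mul_one])
  · rw [norm_mul]
    exact (mul_le_mul h.hB (PadicInt.norm_le_one _) (norm_nonneg _) (by positivity)).trans
      (by rw [mul_one])

end Pool.Agent.Helper64.HK
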