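import Pool.Agent.Helper64.HK.Mems

/-!
# `k + 1` factors: MEMS from the determinant in the ball
-/

set_option autoImplicit false

namespace Pool.Agent.Helper64.HK

open Pool.Agent.Helper28.HN (I aff)
open Pool.Agent.Helper24.HK Pool.Agent.Helper24.HM
open Finset

variable {p : ℕ} [Fact p.Prime] {k m : ℕ} {a : Fin (k + 1) → Fin (m + 1)}

theorem loc_F {c : Ix a → ℤ_[p]} {L : LocM p (k * (m + 1)) (Fin k)} (hL : IsLoc c L)
    (y : Fin (k * (m + 1)) → ℤ_[p]) (z : ℤ_[p]) :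
    L.F y z = (Mx c (ct (tr y))).det * Fh c (ct (tr y)) z := by
  rw [LocM.F, hL.hA, hL.hB, hL.hC, Fh_eq]
  ring

theorem exists_M (c : Ix a → ℤ_[p]) (L : LocM p (k * (m + 1)) (Fin k)) (hL : IsLoc c L)
    {J : Type} [DecidableEq J] (R : RefM L J) (K : Subfield ℚ_[p])
    (hc : ∀ e, (c e : ℚ_[p]) ∈ K)
    (hD : ∀ y : Fin (k * (m + 1)) → ℤ_[p], ‖y - R.u0‖ ≤ (p : ℝ) ^ (-2 : ℤ) →
      (Mx c (ct (tr y))).det ≠ 0) :
    ∃ M : MemsM L R,
      (∀ N x z, M.Mem N x z ↔
        cq (Xz c (ct (tr x)) z) ∈ Helper24.HK.Zc (K : Set ℚ_[p]) fun e => (c e : ℚ_[p])) ∧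
      (∀ N x z, M.Mem' N x z ↔
        cq (Xz c (ct (tr x)) z) ∈ Helper24.HK.Zc (K : Set ℚ_[p]) fun e => (c e : ℚ_[p])) := by
  have hF := loc_F hL
  have hroot : ∀ (y : Fin (k * (m + 1)) → ℤ_[p]) (z w : ℤ_[p]), L.A y ≠ 0 →
      (∀ v, L.F y v = L.A y * (v - z) * (v - w)) →
      Ah c (ct (tr y)) ≠ 0 ∧ Ah c (ct (tr y)) * w =
        - (2 * Bh c (ct (tr y))) - Ah c (ct (tr y)) * z := by
    intro y z w hAx hv
    rw [hL.hA] at hAx
    have hD := left_ne_zero_of_mul hAx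
    refine ⟨right_ne_zero_of_mul hAx, ?_⟩
    refine other_root (C := Ch c (ct (tr y))) fun v => ?_
    have := hv v
    rw [hF, hL.hA, Fh_eq] at this
    refine mul_left_cancel₀ hD ?_
    rw [this]
    ring
  exact ⟨{
    Mem := fun _ y z => Zp K c (cq (Xz c (ct (tr y)) z))
    Mem' := fun _ y z => Zp K c (cq (Xz c (ct (tr y)) z))
    on := fun N y z hM => by rw [hF, zp_F hc hM, mul_zero]
    on' := fun N y z hM => by rw [hF, zp_F hc hM, mul_zero]
    inv2 := fun l N y z t hy hM hk ht => by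
      rw [hL.hxi]
      rw [hL.hkap, hL.hpsi] at ht
      rw [hL.hkap] at hk
      have hne : th c l.succ (ct (tr y)) z * kah c l.succ (ct (tr y)) z ≠ 0 := by
        intro h0
        rw [h0, norm_zero] at hk
        exact zero_ne_one hk
      refine mm_zp hc (zp_nx hc l (zp_mm (hD y hy) hM) (right_ne_zero_of_mul hne) ?_)
      refine mul_left_cancel₀ (left_ne_zero_of_mul hne) ?_
      linear_combination ht
    rel := fun l y z hy h1 h2 h3 => by
      rw [hL.hA] at h1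
      rw [hL.hB] at h2
      rw [hL.hC] at h3
      have hD := hD y hy
      obtain ⟨d, hd, -⟩ := hL.hd l y (vh c l.succ (Xz c (ct (tr y)) z))
      have h4 := hd z
      have h5 : Fh c (ct (tr y)) z = 0 := by
        refine mul_left_cancel₀ hD ?_
        rw [Fh_eq]
        linear_combination z ^ 2 * h1 + z * h2 + h3
      have h6 : (Fin.cons 0 (vh c l.succ (Xz c (ct (tr y)) z)) : I m → ℤ_[p]) =
          xh c l.succ (Xz c (ct (tr y)) z) := rfl
      rw [h5, h6, qh_psh', mul_zero, add_zero] at h4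
      rw [hL.hpsi, hL.hxi, h4]
    inv1 := fun N y z w hy hM hAx hv => by
      obtain ⟨h1, h2⟩ := hroot _ _ _ hAx hv
      exact mm_zp hc (zp_ny hc (zp_mm (hD y hy) hM) h1 h2) },
    fun N y z => Iff.rfl, fun N y z => Iff.rfl⟩

end Pool.Agent.Helper64.HK
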