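import Pool.Agent.Helper64.HK.Pt

/-!
# `k + 1` factors: families of points in the chart closed under the involutions
-/

set_option autoImplicit false

namespace Pool.Agent.Helper64.HK

open Pool.Agent.Helper28.HN (I aff)
open Pool.Agent.Helper37.HK (sc)
open Function Finset

variable {k m : ℕ} {a : Fin (k + 1) → Fin (m + 1)} {K : Type*} [Field K] {c : Ix a → K}
  {Z : (Fin (k + 1) → I m → K) → Prop} {u : Fin k × Fin (m + 1) → K} {z w t : K}

/-- A family of points of the complete intersection which is closed under the involutions and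
under the scaling of every factor. -/
structure Cl (c : Ix a → K) (Z : (Fin (k + 1) → I m → K) → Prop) : Prop where
  hon : ∀ X, Z X → OnX c X
  hsg : ∀ j X, Z X → Z (sg c j X)
  hsc : ∀ lam X, Z X → Z (sc lam X)

/-- A member of the family over the point `(u, z)` of the chart. -/
def Mm (Z : (Fin (k + 1) → I m → K) → Prop) (u : Fin k × Fin (m + 1) → K) (z : K) : Prop :=
  ∃ y : I m → K, y 0 ≠ 0 ∧ y 1 = z * y 0 ∧ Z (update (ct u) 0 y)

theorem Mm.pt (hZ : Cl c Z) {y : I m → K} (h0 : y 0 ≠ 0) (h1 : y 1 = z * y 0)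
    (h : Z (update (ct u) 0 y)) : Pt c (update (ct u) 0 y) z :=
  ⟨hZ.hon _ h, by rw [update_self]; exact h0, by rw [update_self]; exact h1⟩

theorem Mm.on (hZ : Cl c Z) (h : Mm Z u z) : Fh c (ct u) z = 0 := by
  obtain ⟨y, h0, h1, h2⟩ := h
  have := (Mm.pt hZ h0 h1 h2).Fh_zero
  rwa [Fh_upd] at this

theorem Mm.inv1 (hZ : Cl c Z) (h : Mm Z u z) (hA : Ah c (ct u) ≠ 0)
    (hw : Ah c (ct u) * w = - (2 * Bh c (ct u)) - Ah c (ct u) * z) : Mm Z u w := by
  obtain ⟨y, h0, h1, h2⟩ := h
  have h3 := (Mm.pt hZ h0 h1 h2).ny (w := w) (by rwa [Ah_upd]) (by rwa [Ah_upd, Bh_upd])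
  have h4 := hZ.hsg 0 _ h2
  rw [sg_zero, update_idem] at h3 h4
  refine ⟨_, ?_, ?_, h4⟩
  · have := h3.h0
    rwa [update_self] at this
  · have := h3.h1
    rwa [update_self] at this

/-- The coordinates after the involution in the factor `j.succ`. -/
def sh (j : Fin k) (u : Fin k × Fin (m + 1) → K) (t : K) (v : Fin (m + 1) → K) :
    Fin k × Fin (m + 1) → K := fun q => u q - t * if q.1 = j then v q.2 else 0

theorem ct_sh (j : Fin k) (u : Fin k × Fin (m + 1) → K) (t : K) (v : Fin (m + 1) → K) :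
    ct (sh j u t v) = update (ct u) j.succ
      fun i => ct u j.succ i - t * (Fin.cons 0 v : I m → K) i := by
  funext l
  refine Fin.cases ?_ (fun l => ?_) l
  · rw [update_of_ne (Fin.succ_ne_zero j).symm]
    rfl
  · by_cases hl : l = j
    · subst hl
      rw [update_self]
      funext i
      refine Fin.cases ?_ (fun i => ?_) i
      · simp [ct, aff]
      · simp [ct, aff, sh]
    · rw [update_of_ne (fun h => hl (Fin.succ_injective _ h))]
      funext i
      refine Fin.cases ?_ (fun i => ?_) i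
      · simp [ct, aff]
      · simp [ct, aff, sh, hl]

theorem Mm.inv2 (hZ : Cl c Z) (h : Mm Z u z) (j : Fin k) (hk : kah c j.succ (ct u) z ≠ 0)
    (ht : t * kah c j.succ (ct u) z = 2 * psh c j.succ (ct u) z) :
    Mm Z (sh j u t (vh c j.succ (Xz c (ct u) z))) z := by
  obtain ⟨y, h0, h1, h2⟩ := h
  have h3 := Mm.pt hZ h0 h1 h2
  obtain ⟨μ, hμ, h4⟩ := h3.nx (t := t) j (by rwa [kah_upd])
    (by rwa [kah_upd, psh_upd c _ _ _ (Fin.succ_ne_zero j)])
  rw [Xz_upd] at h4
  have h5 := hZ.hsc (update 1 j.succ μ⁻¹) _ (hZ.hsg j.succ _ h2)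
  have h6 : sc (update 1 j.succ μ⁻¹) (sg c j.succ (update (ct u) 0 y)) =
      update (ct (sh j u t (vh c j.succ (Xz c (ct u) z)))) 0 y := by
    rw [h4, Helper37.HK.sc_single, update_self, update_idem, ct_sh,
      update_comm (Fin.succ_ne_zero j), update_of_ne (Fin.succ_ne_zero j)]
    congr 1
    funext i
    rw [← mul_assoc, inv_mul_cancel₀ hμ, one_mul]
    rfl
  rw [h6] at h5
  exact ⟨y, h0, h1, h5⟩

end Pool.Agent.Helper64.HK
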