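import Pool.Agent.Helper64.HK.Mm

/-!
# `k + 1` factors: the normalised points, the line of the start
-/

set_option autoImplicit false

namespace Pool.Agent.Helper64.HK

open Pool.Agent.Helper28.HN (I aff)
open Pool.Agent.Helper37.HK (sc)
open Function Finset

variable {k m : ℕ} {a : Fin (k + 1) → Fin (m + 1)} {K : Type*} [Field K] {c : Ix a → K}
  {Z : (Fin (k + 1) → I m → K) → Prop} {u : Fin k × Fin (m + 1) → K} {z w t : K}

/-- The normalised point. -/
theorem Mm.xz (hZ : Cl c Z) (h : Mm Z u z) : Z (Xz c (ct u) z) := by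
  obtain ⟨y, h0, h1, h2⟩ := h
  have h3 := Mm.pt hZ h0 h1 h2
  have h4 := hZ.hsc (update 1 0 ((Mx c (ct u)).det / y 0)) _ h2
  rw [Helper37.HK.sc_single, update_self, update_idem] at h4
  have h5 : (fun i => (Mx c (ct u)).det / y 0 * y i) = yh c (ct u) z := by
    funext i
    have h6 := det_mul_eq c (update (ct u) 0 y) z y (fun r => by
      have := h3.rows r
      rwa [update_self] at this) h1 i
    rw [Mx_upd, yh_upd] at h6
    field_simp
    exact h6
  rw [h5] at h4
  exact h4

theorem mm_of_xz (hD : (Mx c (ct u)).det ≠ 0) (h : Z (Xz c (ct u) z)) : Mm Z u z :=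
  ⟨yh c (ct u) z, by rwa [yh_zero], by rw [yh_zero, yh_one], h⟩

theorem onX_Xz (h2 : (2 : K) ≠ 0) {X : Fin (k + 1) → I m → K} (hF : Fh c X z = 0) :
    OnX c (Xz c X z) := by
  unfold Xz
  refine onX_upd c 0 (fun r => rf_yh c X z r) ?_
  have h3 : Fh c X z = 2 * Ef c (a 0) (update X 0 (yh c X z)) := Pf_self c 0 X _
  rw [hF] at h3
  exact (mul_eq_zero.1 h3.symm).resolve_left h2

/-- The line in the factor `j.succ`. -/
theorem onX_line (h2 : (2 : K) ≠ 0) (j : Fin k) {X : Fin (k + 1) → I m → K} (hF : Fh c X z = 0)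
    (hp : psh c j.succ X z = 0) (hk : kah c j.succ X z = 0) (t : K) :
    OnX c (update (Xz c X z) j.succ fun i => X j.succ i + t * xh c j.succ (Xz c X z) i) := by
  have hX := onX_Xz h2 hF
  have e : (fun i => X j.succ i + t * xh c j.succ (Xz c X z) i) =
      fun i => 1 * X j.succ i + t * xh c j.succ (Xz c X z) i := by
    funext i
    rw [one_mul]
  rw [e]
  refine onX_upd c j.succ (fun r => ?_) ?_
  · have h3 := rf_self c j.succ (X := Xz c X z) r
    rw [Xz_succ, hX] at h3
    rw [rf_comb, h3, rf_xh, mul_zero, mul_zero, add_zero]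
  · have h3 : Ef c (a j.succ) (update (Xz c X z) j.succ (X j.succ)) = 0 := by
      have : X j.succ = Xz c X z j.succ := (Xz_succ c X z j).symm
      rw [this, update_eq_self]
      exact hX _
    have h4 : Ef c (a j.succ) (update (Xz c X z) j.succ (xh c j.succ (Xz c X z))) = 0 := by
      have h5 := Pf_self c j.succ (Xz c X z) (xh c j.succ (Xz c X z))
      have h6 : Pf c j.succ (Xz c X z) (xh c j.succ (Xz c X z)) (xh c j.succ (Xz c X z)) = 0 := hk
      rw [h6] at h5
      exact (mul_eq_zero.1 h5.symm).resolve_left h2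
    have h7 : Pf c j.succ (Xz c X z) (X j.succ) (xh c j.succ (Xz c X z)) = 0 := hp
    rw [Ef_quad, h3, h4, h7]
    ring

/-- The coordinates on the line in the factor `j.succ`. -/
theorem ct_add (j : Fin k) (u : Fin k × Fin (m + 1) → K) (t : K) (v : Fin (m + 1) → K) :
    ct (fun q => u q + t * if q.1 = j then v q.2 else 0) = update (ct u) j.succ
      fun i => ct u j.succ i + t * (Fin.cons 0 v : I m → K) i := by
  have h := ct_sh j u (-t) v
  have e : sh j u (-t) v = fun q => u q + t * if q.1 = j then v q.2 else 0 := by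
    funext q
    unfold sh
    ring
  rw [e] at h
  rw [h]
  congr 1
  funext i
  ring

/-- The line of the start. -/
theorem mm_line (hD : (Mx c (ct u)).det ≠ 0) (j : Fin k)
    (h : Z fun l i => Xz c (ct u) z l i +
      t * update (0 : Fin (k + 1) → I m → K) j.succ (xh c j.succ (Xz c (ct u) z)) l i) :
    Mm Z (fun q => u q + t * if q.1 = j then vh c j.succ (Xz c (ct u) z) q.2 else 0) z := by
  refine ⟨yh c (ct u) z, by rwa [yh_zero], by rw [yh_zero, yh_one], ?_⟩
  rw [ct_add]
  convert h using 1
  funext l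
  by_cases hl : l = 0
  · subst hl
    funext i
    rw [update_self, update_of_ne (Fin.succ_ne_zero j).symm]
    unfold Xz
    rw [update_self]
    simp
  · rw [update_of_ne hl]
    unfold Xz
    rw [update_of_ne hl]
    by_cases hj : l = j.succ
    · subst hj
      rw [update_self, update_self]
      rfl
    · rw [update_of_ne hj, update_of_ne hj]
      funext i
      simp

end Pool.Agent.Helper64.HK
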