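import Pool.Agent.Helper64.HK.Line
import Pool.Agent.Helper37.HK.Hom

/-!
# `k + 1` factors: points in the chart and the involutions
-/

set_option autoImplicit false

namespace Pool.Agent.Helper64.HK

open Pool.Agent.Helper28.HN (I aff)
open Pool.Agent.Helper37.HK (sc nx_sc kt kt_ne_zero update_sc)
open Function Finset

section ring

variable {k m : ℕ} {a : Fin (k + 1) → Fin (m + 1)} {S : Type*} [CommRing S] (c : Ix a → S)

theorem Mf_U_zero (i : Fin (m + 1)) (U V : Fin (k + 1) → I m → S) (j : Fin (k + 1))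
    (h : ∀ l, U j l = 0) : Mf c i U V = 0 := by
  have h1 := Mf_U c i U V j 0 0 (U j) (U j)
  have h2 : update U j (fun l => (0 : S) * U j l + 0 * U j l) = U := by
    rw [update_eq_self_iff]
    funext l
    simp [h l]
  rw [h2] at h1
  simpa using h1

theorem Pf_X_zero (j : Fin (k + 1)) (X : Fin (k + 1) → I m → S) (l : Fin (k + 1)) (hl : l ≠ j)
    (h : ∀ i, X l i = 0) (v w : I m → S) : Pf c j X v w = 0 := by
  unfold Pf
  rw [Mf_U_zero c _ _ _ l (by rw [update_of_ne hl]; exact h),
    Mf_U_zero c _ _ _ l (by rw [update_of_ne hl]; exact h), add_zero]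

end ring

variable {k m : ℕ} {a : Fin (k + 1) → Fin (m + 1)} {K : Type*} [Field K] (c : Ix a → K)
  {X : Fin (k + 1) → I m → K} {z w t : K}

/-- A point of the complete intersection with the coordinate `z`. -/
structure Pt (X : Fin (k + 1) → I m → K) (z : K) : Prop where
  hon : OnX c X
  h0 : X 0 0 ≠ 0
  h1 : X 0 1 = z * X 0 0

variable {c}

theorem Pt.rows (h : Pt c X z) (r : Fin m) : rf c 0 X r (X 0) = 0 := by
  rw [rf_self]
  exact h.hon _

theorem Pt.Fh_zero (h : Pt c X z) : Fh c X z = 0 := by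
  have h2 := sq_mul_eq c X z (X 0) h.rows h.h1
  have h3 : Pf c 0 X (X 0) (X 0) = 0 := by
    rw [Pf_self, update_eq_self, h.hon, mul_zero]
  rw [h3, mul_zero] at h2
  rcases mul_eq_zero.1 h2.symm with h4 | h4
  · exact absurd (pow_eq_zero_iff two_ne_zero |>.1 h4) h.h0
  · exact h4

theorem Pt.scale (h : Pt c X z) (hD : (Mx c X).det ≠ 0) :
    ∃ s : K, s ≠ 0 ∧ X 0 = fun i => s * yh c X z i := by
  refine ⟨X 0 0 / (Mx c X).det, div_ne_zero h.h0 hD, funext fun i => ?_⟩
  have := det_mul_eq c X z (X 0) h.rows h.h1 i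
  field_simp
  linear_combination this

/-- The second point in the factor `0`. -/
theorem Pt.ny (h : Pt c X z) (hA : Ah c X ≠ 0)
    (hw : Ah c X * w = - (2 * Bh c X) - Ah c X * z) : Pt c (sg c 0 X) w := by
  have e0 : HK.ny c X 0 = Ah c X * X 0 0 := by
    simp [HK.ny]
  have e1 : HK.ny c X 1 = Ah c X * X 0 1 - 2 * (Pf c 0 X (X 0) (Y1 c X) * (Mx c X).det) := by
    simp only [HK.ny, Y1_one]
    ring
  have e2 : Pf c 0 X (X 0) (Y1 c X) * (Mx c X).det = X 0 0 * (Bh c X + z * Ah c X) := by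
    have e3 : (fun i => (Mx c X).det * X 0 i) = fun i => X 0 0 * yh c X z i :=
      funext (det_mul_eq c X z (X 0) h.rows h.h1)
    have e4 : Pf c 0 X (fun i => (Mx c X).det * X 0 i) (Y1 c X) =
        (Mx c X).det * Pf c 0 X (X 0) (Y1 c X) := Pf_smul_l c _ _ _ _ _
    have e5 : Pf c 0 X (yh c X z) (Y1 c X) = Bh c X + z * Ah c X := by
      rw [yh_eq, Pf_comb_l]
      simp only [Ah, Bh]
      ring
    rw [mul_comm, ← e4, e3, Pf_smul_l, e5]
  refine ⟨onX_sg c 0 h.hon, ?_, ?_⟩
  · rw [sg_zero, update_self, e0]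
    exact mul_ne_zero hA h.h0
  · rw [sg_zero, update_self, e1, e2, e0, h.h1]
    linear_combination (-(X 0 0)) * hw

/-- The second point in the factor `j.succ`. -/
theorem Pt.nx (h : Pt c X z) (j : Fin k) (hk : kah c j.succ X z ≠ 0)
    (ht : t * kah c j.succ X z = 2 * psh c j.succ X z) :
    ∃ μ : K, μ ≠ 0 ∧ sg c j.succ X = update X j.succ fun i =>
      μ * (X j.succ i - t * xh c j.succ (Xz c X z) i) := by
  have hD : (Mx c X).det ≠ 0 := by
    intro hD
    have h2 : ∀ i, yh c X z i = 0 := by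
      intro i
      have h3 := det_mul_eq c X z (X 0) h.rows h.h1 i
      rw [hD, zero_mul] at h3
      exact (mul_eq_zero.1 h3.symm).resolve_left h.h0
    refine hk ?_
    unfold kah
    refine Pf_X_zero c _ _ 0 (Fin.succ_ne_zero j).symm (fun i => ?_) _ _
    unfold Xz
    rw [update_self]
    exact h2 i
  obtain ⟨s, hs, hX⟩ := h.scale hD
  have h2 : X = sc (update 1 0 s) (Xz c X z) := by
    unfold Xz
    rw [← update_sc]
    have h3 : sc (1 : Fin (k + 1) → K) X = X := by
      funext l i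
      simp [sc]
    rw [h3, ← hX, update_eq_self]
  have h4 : ∀ l, update (1 : Fin (k + 1) → K) 0 s l ≠ 0 := by
    intro l
    by_cases hl : l = 0
    · subst hl; rw [update_self]; exact hs
    · rw [update_of_ne hl]; exact one_ne_zero
  refine ⟨kt a j.succ (update 1 0 s) * kah c j.succ X z,
    mul_ne_zero (kt_ne_zero _ h4) hk, ?_⟩
  rw [sg_succ]
  congr 1
  conv_lhs => rw [h2]
  rw [nx_sc]
  funext i
  rw [update_of_ne (Fin.succ_ne_zero j), Pi.one_apply, mul_one, nx_yh]
  linear_combination (kt a j.succ (update 1 0 s) * xh c j.succ (Xz c X z) i) * ht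

theorem Pt.nx_pt (h : Pt c X z) (j : Fin k) {v : I m → K} {μ : K} (hμ : μ ≠ 0)
    (hv : sg c j.succ X = update X j.succ fun i => μ * v i) : Pt c (update X j.succ v) z := by
  have h1 : Pt c (sg c j.succ X) z := by
    refine ⟨onX_sg c _ h.hon, ?_, ?_⟩
    · rw [sg_succ, update_of_ne (Fin.succ_ne_zero j).symm]
      exact h.h0
    · rw [sg_succ, update_of_ne (Fin.succ_ne_zero j).symm]
      exact h.h1
  have h2 : update X j.succ v = sc (update 1 j.succ μ⁻¹) (sg c j.succ X) := by
    rw [hv, ← update_sc]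
    have h3 : sc (1 : Fin (k + 1) → K) X = X := by
      funext l i
      simp [sc]
    rw [h3]
    congr 1
    funext i
    rw [← mul_assoc, inv_mul_cancel₀ hμ, one_mul]
  refine ⟨?_, ?_, ?_⟩
  · rw [h2]
    exact Helper37.HK.OnX_sc h1.hon _
  · rw [update_of_ne (Fin.succ_ne_zero j).symm]
    exact h.h0
  · rw [update_of_ne (Fin.succ_ne_zero j).symm]
    exact h.h1

end Pool.Agent.Helper64.HK
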