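import Pool.Agent.Helper64.HK.Curve
import Pool.Agent.Helper64.HM.StartE

/-!
# `k + 1` factors: the first state from a curve of genus one
-/

set_option autoImplicit false

namespace Pool.Agent.Helper64.HK

open Pool.Agent.Helper28.HN (I aff)
open Pool.Agent.Helper24.HK Pool.Agent.Helper24.HM
open Function Finset

variable {p : ℕ} [Fact p.Prime] {k m : ℕ} {a : Fin (k + 1) → Fin (m + 1)}

/-- The line through `X` in the factor `j`. -/
noncomputable def ln (X : Fin (k + 1) → I m → ℚ_[p]) (j : Fin (k + 1)) (ξ : I m → ℚ_[p])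
    (l : Fin (k + 1)) (i : I m) : Polynomial ℚ_[p] :=
  Polynomial.C (X l i) + Polynomial.X * Polynomial.C (update (0 : Fin (k + 1) → I m → ℚ_[p]) j ξ l i)

theorem eval_ln (X : Fin (k + 1) → I m → ℚ_[p]) (j : Fin (k + 1)) (ξ : I m → ℚ_[p]) (t : ℚ_[p]) :
    (fun l i => (ln X j ξ l i).eval t) = update X j fun i => X j i + t * ξ i := by
  funext l i
  unfold ln
  simp only [Polynomial.eval_add, Polynomial.eval_C, Polynomial.eval_mul, Polynomial.eval_X]
  by_cases hl : l = j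
  · subst hl
    rw [update_self, update_self]
  · rw [update_of_ne hl, update_of_ne hl]
    simp

/-- The first state from the points over the line `u0 + t v` in the factor `f.succ`. -/
theorem st_curve (c : Ix a → ℤ_[p]) (L : LocM p (k * (m + 1)) (Fin k)) (hL : IsLoc c L)
    {J : Type} [DecidableEq J] (R : RefM L J) (M : MemsM L R) (K : Subfield ℚ_[p])
    (hc : ∀ e, (c e : ℚ_[p]) ∈ K)
    (hM : ∀ x z, cq (Xz c (ct (tr x)) z) ∈ (Helper24.HK.Zc (K : Set ℚ_[p])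
      fun e => (c e : ℚ_[p])) → M.Mem 0 x z)
    (hu : ∀ i, ((R.u0 i : ℤ_[p]) : ℚ_[p]) ∈ K) (f : Fin k) (v : Fin (m + 1) → ℤ_[p])
    (hv : ∀ i, ((v i : ℤ_[p]) : ℚ_[p]) ∈ K)
    (hq : ‖qh c f.succ (ct (tr R.u0)) (Fin.cons 0 v) (R.z R.j)‖ = 1)
    (hD : ‖(Mx c (ct (tr R.u0))).det‖ = 1)
    (hA : ‖Ah c (ct (tr R.u0))‖ = (p : ℝ) ^ (-2 : ℤ))
    (hy : Fh c (ct (tr R.u0)) (R.z R.y) = 0) (hj : Fh c (ct (tr R.u0)) (R.z R.j) = 0)
    (s q : Polynomial ℚ_[p]) (hs : ∀ t ∈ K, s.eval t ∈ K)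
    (hsq : ∀ t : ℚ_[p],
      Bh (cc c) (fun l i => (ln (ct (uq R.u0)) f.succ (Fin.cons 0 fun i => (v i : ℚ_[p])) l i).eval t) ^ 2 -
      Ah (cc c) (fun l i => (ln (ct (uq R.u0)) f.succ (Fin.cons 0 fun i => (v i : ℚ_[p])) l i).eval t) *
      Ch (cc c) (fun l i => (ln (ct (uq R.u0)) f.succ (Fin.cons 0 fun i => (v i : ℚ_[p])) l i).eval t) =
        s.eval t ^ 2 * q.eval t)
    (hst : ∀ t : ℤ_[p], ‖t‖ ≤ (p : ℝ) ^ (-2 : ℤ) → s.eval (t : ℚ_[p]) ≠ 0)
    (hinf : {t : ℚ_[p] | t ∈ K ∧ ∃ w ∈ K, w ≠ 0 ∧ w ^ 2 = q.eval t}.Infinite) :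
    ∃ x, StM M R.y R.j 2 0 x := by
  have hF : ∀ y z, L.F y z = (Mx c (ct (tr y))).det * Fh c (ct (tr y)) z := by
    intro y z
    rw [LocM.F, hL.hA, hL.hB, hL.hC, Fh_eq]
    ring
  have huq : ∀ r, uq R.u0 r ∈ K := fun r => hu _
  obtain ⟨d, hd, -⟩ := hL.hd f R.u0 v
  refine Pool.Agent.Helper64.HM.start_curve M (Helper24.HK.em f v) ?_ ?_ ?_ ?_ ?_
  · rw [hd, hj, mul_zero, add_zero, hq]
  · rw [hL.hA, norm_mul, hD, one_mul, hA]
  · rw [hF, hy, mul_zero]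
  · rw [hF, hj, mul_zero]
  · intro t w ht _ h0 hA0
    rw [hF] at h0
    rw [hL.hA] at hA0
    have h1 : Fh c (ct (tr (R.u0 + t • Helper24.HK.em f v))) w = 0 :=
      (mul_eq_zero.1 h0).resolve_left (left_ne_zero_of_mul hA0)
    have h2 := right_ne_zero_of_mul hA0
    apply hM
    have hpt : (fun l i => (ln (ct (uq R.u0)) f.succ (Fin.cons 0 fun i => (v i : ℚ_[p])) l i).eval
        (t : ℚ_[p])) = ct (uq (R.u0 + t • Helper24.HK.em f v)) := by
      rw [eval_ln, uq_add]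
      exact (ct_add f (uq R.u0) (t : ℚ_[p]) fun i => cj (v i)).symm
    rw [cq_Xz, ← hpt]
    refine zc_curve (c := cc c) two_ne_zero (infinite_sub K) hc _ ?_ s q hs hsq hinf _ _ ?_ ?_ ?_
    · intro t ht l i
      have h3 := congrFun (congrFun (eval_ln (ct (uq R.u0)) f.succ
        (Fin.cons 0 fun i => (v i : ℚ_[p])) t) l) i
      rw [h3]
      by_cases hl : l = f.succ
      · subst hl
        rw [update_self]
        refine K.add_mem (mem_ct huq _ _) (K.mul_mem ht ?_)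
        refine Fin.cases ?_ (fun i => ?_) i
        · exact K.zero_mem
        · exact hv i
      · rw [update_of_ne hl]
        exact mem_ct huq _ _
    · rw [hpt, cj_Fh, h1, map_zero]
    · rw [hpt, cj_Ah]
      intro h3
      exact h2 (cj_inj (by rw [h3, map_zero]))
    · refine hst t (ht.trans ?_)
      have h5 := Pool.Agent.Helper45.HN.p2_le_one (p := p)
      have h6 := Pool.Agent.Helper45.HN.p2_pos (p := p)
      calc (p : ℝ) ^ (-2 : ℤ) * (p : ℝ) ^ (-2 : ℤ) ≤ 1 * (p : ℝ) ^ (-2 : ℤ) :=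
            mul_le_mul_of_nonneg_right h5 h6.le
        _ = _ := one_mul _

end Pool.Agent.Helper64.HK
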